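import Mathlib

/-!
# Unions of rotated and translated copies of the triangular lattice

The plane is identified with `ℂ`.
-/

open Filter Topology

namespace Pool.Agent.R332.Forest

/-- `(1/2, √3/2)` -/
noncomputable def w : ℂ := ⟨1 / 2, Real.sqrt 3 / 2⟩

/-- the lattice spanned by `(1, 0)` and `(1/2, √3/2)` -/
def lat : Set ℂ := {z | ∃ a b : ℤ, z = (a : ℂ) + (b : ℂ) * w}

/-- the lattice rotated by the unit complex number `ζ` and translated by `x` -/
def copy (ζ x : ℂ) : Set ℂ := {p | ∃ l ∈ lat, p = ζ * l + x}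

/-- dense forests: for every `ε > 0` there is `V > 0` such that every segment of length `V` has a
point of `D` at distance less than `ε` from it -/
def DenseForest (D : Set ℂ) : Prop :=
  ∀ ε : ℝ, 0 < ε → ∃ V : ℝ, 0 < V ∧ ∀ a b : ℂ, dist a b = V →
    ∃ p ∈ segment ℝ a b, ∃ d ∈ D, dist d p < ε

/-- uniformly discrete sets -/
def UniformlyDiscrete (D : Set ℂ) : Prop :=
  ∃ r : ℝ, 0 < r ∧ ∀ p ∈ D, ∀ q ∈ D, p ≠ q → r ≤ dist p q

theorem w_re : w.re = 1 / 2 := rfl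
theorem w_im : w.im = Real.sqrt 3 / 2 := rfl

theorem sqrt3_pos : 0 < Real.sqrt 3 := Real.sqrt_pos.2 (by norm_num)

theorem sqrt3_sq : Real.sqrt 3 * Real.sqrt 3 = 3 := Real.mul_self_sqrt (by norm_num)

theorem w_sq : w * w = w - 1 := by
  apply Complex.ext
  · rw [Complex.mul_re, Complex.sub_re, Complex.one_re, w_re, w_im]
    linear_combination (-1 / 4 : ℝ) * sqrt3_sq
  · rw [Complex.mul_im, Complex.sub_im, Complex.one_im, w_re, w_im]
    ring

theorem norm_w : ‖w‖ = 1 := by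
  rw [Complex.norm_eq_sqrt_sq_add_sq, w_re, w_im]
  have : ((1 : ℝ) / 2) ^ 2 + (Real.sqrt 3 / 2) ^ 2 = 1 := by
    linear_combination (1 / 4 : ℝ) * sqrt3_sq
  rw [this, Real.sqrt_one]

theorem conj_w : (starRingEnd ℂ) w = 1 - w := by
  apply Complex.ext
  · rw [Complex.conj_re, Complex.sub_re, Complex.one_re, w_re]; norm_num
  · rw [Complex.conj_im, Complex.sub_im, Complex.one_im, w_im]; ring

theorem zero_mem : (0 : ℂ) ∈ lat := ⟨0, 0, by simp⟩

theorem one_mem : (1 : ℂ) ∈ lat := ⟨1, 0, by simp⟩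

theorem int_mem (n : ℤ) : (n : ℂ) ∈ lat := ⟨n, 0, by simp⟩

theorem add_mem {x y : ℂ} (hx : x ∈ lat) (hy : y ∈ lat) : x + y ∈ lat := by
  obtain ⟨a, b, rfl⟩ := hx
  obtain ⟨c, d, rfl⟩ := hy
  exact ⟨a + c, b + d, by push_cast; ring⟩

theorem neg_mem {x : ℂ} (hx : x ∈ lat) : -x ∈ lat := by
  obtain ⟨a, b, rfl⟩ := hx
  exact ⟨-a, -b, by push_cast; ring⟩

theorem sub_mem {x y : ℂ} (hx : x ∈ lat) (hy : y ∈ lat) : x - y ∈ lat := by
  rw [sub_eq_add_neg]; exact add_mem hx (neg_mem hy)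

theorem mul_mem {x y : ℂ} (hx : x ∈ lat) (hy : y ∈ lat) : x * y ∈ lat := by
  obtain ⟨a, b, rfl⟩ := hx
  obtain ⟨c, d, rfl⟩ := hy
  exact ⟨a * c - b * d, a * d + b * c + b * d, by
    push_cast
    linear_combination (b : ℂ) * d * w_sq⟩

theorem conj_mem {x : ℂ} (hx : x ∈ lat) : (starRingEnd ℂ) x ∈ lat := by
  obtain ⟨a, b, rfl⟩ := hx
  refine ⟨a + b, -b, ?_⟩
  rw [map_add, map_mul, conj_w, map_intCast, map_intCast]
  push_cast
  ring

theorem im_lat {x : ℂ} (hx : x ∈ lat) : ∃ n : ℤ, x.im = n * (Real.sqrt 3 / 2) := by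
  obtain ⟨a, b, rfl⟩ := hx
  refine ⟨b, ?_⟩
  rw [Complex.add_im, Complex.mul_im, w_im, w_re, Complex.intCast_im, Complex.intCast_im,
    Complex.intCast_re]
  ring

/-- `x * conj x` is a natural number -/
theorem norm_lat {x : ℂ} (hx : x ∈ lat) (h0 : x ≠ 0) :
    ∃ n : ℕ, 0 < n ∧ x * (starRingEnd ℂ) x = (n : ℂ) := by
  obtain ⟨a, b, rfl⟩ := hx
  have h1 : ((a : ℂ) + b * w) * (starRingEnd ℂ) ((a : ℂ) + b * w) =
      ((a * a + a * b + b * b : ℤ) : ℂ) := by
    rw [map_add, map_mul, conj_w, map_intCast, map_intCast]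
    push_cast
    linear_combination (-(b : ℂ) * b) * w_sq
  have h2 : 0 < a * a + a * b + b * b := by
    by_contra hcon
    push Not at hcon
    have hb : b = 0 := by nlinarith [sq_nonneg (2 * a + b), sq_nonneg b]
    have ha : a = 0 := by
      subst hb
      nlinarith
    apply h0
    rw [ha, hb]
    simp
  refine ⟨(a * a + a * b + b * b).toNat, by omega, ?_⟩
  rw [h1]
  have h3 : (((a * a + a * b + b * b).toNat : ℤ) : ℂ) = ((a * a + a * b + b * b : ℤ) : ℂ) := by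
    rw [Int.toNat_of_nonneg h2.le]
  rw [← h3]
  push_cast
  rfl

/-! ### Coordinates -/

/-- second coordinate with respect to `1, w` -/
noncomputable def c2 (z : ℂ) : ℝ := 2 * z.im / Real.sqrt 3

/-- first coordinate with respect to `1, w` -/
noncomputable def c1 (z : ℂ) : ℝ := z.re - z.im / Real.sqrt 3

theorem coord (z : ℂ) : z = (c1 z : ℂ) + (c2 z : ℂ) * w := by
  have h := sqrt3_pos.ne'
  unfold c1 c2
  apply Complex.ext
  · rw [Complex.add_re, Complex.re_ofReal_mul, Complex.ofReal_re, w_re]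
    field_simp
    ring
  · rw [Complex.add_im, Complex.im_ofReal_mul, Complex.ofReal_im, w_im]
    field_simp
    ring

/-- every point is at distance at most `1` from the lattice -/
theorem near (z : ℂ) : ∃ l ∈ lat, ‖z - l‖ ≤ 1 := by
  refine ⟨(round (c1 z) : ℂ) + (round (c2 z) : ℂ) * w, ⟨_, _, rfl⟩, ?_⟩
  have h : z - ((round (c1 z) : ℂ) + (round (c2 z) : ℂ) * w) =
      ((c1 z - round (c1 z) : ℝ) : ℂ) + ((c2 z - round (c2 z) : ℝ) : ℂ) * w := by
    push_cast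
    linear_combination coord z
  rw [h]
  refine (norm_add_le _ _).trans ?_
  rw [norm_mul, norm_w, Complex.norm_real, Complex.norm_real, Real.norm_eq_abs, Real.norm_eq_abs]
  have h1 := abs_sub_round (c1 z)
  have h2 := abs_sub_round (c2 z)
  linarith

/-! ### Lines in irrational directions -/

/-- if no real multiple of `u ≠ 0` is a non-zero lattice vector, the line `z + ℝ u` comes
arbitrarily near to the lattice -/
theorem line_dense (u : ℂ) (hu0 : u ≠ 0) (hu : ∀ s : ℝ, ∀ l ∈ lat, l ≠ 0 → (s : ℂ) * u ≠ l)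
    (z : ℂ) (ε : ℝ) (hε : 0 < ε) : ∃ t : ℝ, ∃ l ∈ lat, ‖z + t * u - l‖ < ε := by
  have hu1 := coord u
  have hz1 := coord z
  set α := c1 u with hα
  set β := c2 u with hβ
  have hβ0 : β ≠ 0 := by
    intro h0
    rw [h0] at hu1
    have hα0 : α ≠ 0 := by
      intro h1
      apply hu0
      rw [hu1, h1]
      simp
    refine hu α⁻¹ 1 one_mem one_ne_zero ?_
    rw [hu1]
    push_cast
    have : (α : ℂ) ≠ 0 := by exact_mod_cast hα0
    field_simp
    ring
  have hβC : (β : ℂ) ≠ 0 := by exact_mod_cast hβ0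
  have hirr : Irrational (α / β) := by
    rintro ⟨r, hr⟩
    refine hu ((r.den : ℝ) / β) ((r.num : ℂ) + (r.den : ℂ) * w)
      ⟨r.num, r.den, by push_cast; ring⟩ ?_ ?_
    · intro h0
      have h1 := congrArg Complex.im h0
      rw [Complex.add_im, Complex.mul_im, w_im, w_re] at h1
      simp only [Complex.intCast_im, Complex.natCast_im, Complex.natCast_re, zero_mul, add_zero,
        zero_add, Complex.zero_im] at h1
      have h2 : (0 : ℝ) < r.den := by exact_mod_cast r.den_pos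
      have h3 := sqrt3_pos
      have h4 : 0 < (r.den : ℝ) * (Real.sqrt 3 / 2) := by positivity
      linarith
    · rw [hu1]
      have h3 : (r : ℝ) * r.den = r.num := by exact_mod_cast Rat.mul_den_eq_num r
      have h4 : α * r.den = r.num * β := by
        rw [hr] at h3
        field_simp at h3
        linarith
      have h5 : (α : ℂ) * (r.den : ℂ) = (r.num : ℂ) * (β : ℂ) := by exact_mod_cast h4
      push_cast
      field_simp
      linear_combination h5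
  -- a rotation by `α / β`
  set y := c1 z - c2 z * (α / β) with hy
  have hd : Dense (AddSubgroup.closure {α / β, (1 : ℝ)} : Set ℝ) := by
    rw [dense_addSubgroupClosure_pair_iff]
    rwa [div_one]
  obtain ⟨g, hg, hgd⟩ := hd.exists_dist_lt (-y) hε
  rw [SetLike.mem_coe, AddSubgroup.mem_closure_pair] at hg
  obtain ⟨n, m, hnm⟩ := hg
  rw [zsmul_eq_mul, zsmul_eq_mul, mul_one] at hnm
  refine ⟨((n : ℝ) - c2 z) / β, ((-m : ℤ) : ℂ) + (n : ℂ) * w, ⟨-m, n, rfl⟩, ?_⟩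
  have e : z + (((n : ℝ) - c2 z) / β : ℝ) * u - (((-m : ℤ) : ℂ) + (n : ℂ) * w) =
      ((y + g : ℝ) : ℂ) := by
    rw [← hnm, hy]
    push_cast
    have e2 : (((n : ℂ) - (c2 z : ℂ)) / β) * u = ((n : ℂ) - c2 z) * (α / β) + ((n : ℂ) - c2 z) * w := by
      rw [hu1]
      field_simp
    rw [e2]
    linear_combination hz1
  rw [e, Complex.norm_real, Real.norm_eq_abs]
  rw [Real.dist_eq] at hgd
  have : |y + g| = |-y - g| := by rw [← abs_neg]; congr 1; ring
  rw [this]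
  exact hgd

/-! ### Dense forests from two copies -/

/-- the directions which are rational for both lattices -/
def Rational2 (ζ : ℂ) : Prop := ∃ a ∈ lat, ∃ b ∈ lat, ∃ s : ℝ, a ≠ 0 ∧ b ≠ 0 ∧ ζ * b = s * a

/-- a fixed bounded set containing representatives modulo the lattice -/
theorem reduce (z : ℂ) : ∃ v : ℂ, ‖v‖ ≤ 1 ∧ z - v ∈ lat := by
  obtain ⟨l, hl, h⟩ := near z
  exact ⟨z - l, h, by rw [sub_sub_cancel]; exact hl⟩

theorem forest_of_two (ζ₁ ζ₂ x₁ x₂ : ℂ) (h1 : ‖ζ₁‖ = 1) (h2 : ‖ζ₂‖ = 1)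
    (hr : ¬ Rational2 (ζ₁ / ζ₂)) (D : Set ℂ) (hD1 : copy ζ₁ x₁ ⊆ D) (hD2 : copy ζ₂ x₂ ⊆ D) :
    DenseForest D := by
  have hζ1 : ζ₁ ≠ 0 := by rintro rfl; simp at h1
  have hζ2 : ζ₂ ≠ 0 := by rintro rfl; simp at h2
  intro ε hε
  by_contra hcon
  push Not at hcon
  -- long segments away from `D`
  have hseg : ∀ n : ℕ, ∃ a b : ℂ, dist a b = 2 * ((n : ℝ) + 1) ∧
      ∀ p ∈ segment ℝ a b, ∀ d ∈ D, ε ≤ dist d p := fun n => hcon _ (by positivity)
  choose a b hab hfar using hseg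
  -- centres and directions
  let c : ℕ → ℂ := fun n => (a n + b n) / 2
  let u : ℕ → ℂ := fun n => (b n - a n) / (2 * ((n : ℂ) + 1))
  have hu : ∀ n, ‖u n‖ = 1 := by
    intro n
    have h3 : ‖b n - a n‖ = 2 * ((n : ℝ) + 1) := by
      rw [← hab n, dist_comm, dist_eq_norm]
    have h4 : ‖(2 * ((n : ℂ) + 1))‖ = 2 * ((n : ℝ) + 1) := by
      have : (2 * ((n : ℂ) + 1)) = ((2 * ((n : ℝ) + 1) : ℝ) : ℂ) := by push_cast; ring
      rw [this, Complex.norm_real, Real.norm_eq_abs, abs_of_pos (by positivity)]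
    show ‖(b n - a n) / (2 * ((n : ℂ) + 1))‖ = 1
    rw [norm_div, h3, h4, div_self (by positivity)]
  have hline : ∀ n : ℕ, ∀ t : ℝ, |t| ≤ (n : ℝ) + 1 → c n + t * u n ∈ segment ℝ (a n) (b n) := by
    intro n t ht
    have hn : (0 : ℝ) < (n : ℝ) + 1 := by positivity
    rw [segment_eq_image_lineMap]
    refine ⟨1 / 2 + t / (2 * ((n : ℝ) + 1)), ⟨?_, ?_⟩, ?_⟩
    · have h5 : -(1 / 2) ≤ t / (2 * ((n : ℝ) + 1)) := by
        rw [le_div_iff₀ (by positivity)]
        have := (abs_le.1 ht).1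
        linarith
      linarith
    · have h5 : t / (2 * ((n : ℝ) + 1)) ≤ 1 / 2 := by
        rw [div_le_iff₀ (by positivity)]
        have := (abs_le.1 ht).2
        linarith
      linarith
    · rw [AffineMap.lineMap_apply]
      show ((1 / 2 + t / (2 * ((n : ℝ) + 1)) : ℝ)) • (b n - a n) + a n =
        (a n + b n) / 2 + t * ((b n - a n) / (2 * ((n : ℂ) + 1)))
      rw [Complex.real_smul]
      have hnC : ((n : ℂ) + 1) ≠ 0 := by exact_mod_cast hn.ne'
      push_cast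
      field_simp
      ring
  -- reduced centres
  have hred1 : ∀ n, ∃ v : ℂ, ‖v‖ ≤ 1 ∧ (c n - x₁) / ζ₁ - v ∈ lat := fun n => reduce _
  have hred2 : ∀ n, ∃ v : ℂ, ‖v‖ ≤ 1 ∧ (c n - x₂) / ζ₂ - v ∈ lat := fun n => reduce _
  choose v₁ hv₁ hl₁ using hred1
  choose v₂ hv₂ hl₂ using hred2
  have key : ∀ (ζ x : ℂ) (v : ℕ → ℂ), ζ ≠ 0 → copy ζ x ⊆ D → (∀ n, (c n - x) / ζ - v n ∈ lat) →
      ∀ n : ℕ, ∀ t : ℝ, |t| ≤ (n : ℝ) + 1 → ∀ l ∈ lat, ε ≤ ‖ζ * (v n - l) + t * u n‖ := by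
    intro ζ x v hζ hD hl n t ht l hlat
    have hd : ζ * ((c n - x) / ζ - v n + l) + x ∈ D := hD ⟨_, add_mem (hl n) hlat, rfl⟩
    have h3 := hfar n _ (hline n t ht) _ hd
    rw [dist_comm, dist_eq_norm] at h3
    have e : c n + t * u n - (ζ * ((c n - x) / ζ - v n + l) + x) = ζ * (v n - l) + t * u n := by
      field_simp
      ring
    rwa [e] at h3
  -- a convergent subsequence
  let K : Set (ℂ × ℂ × ℂ) := (Metric.closedBall 0 1) ×ˢ (Metric.closedBall 0 1) ×ˢ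
    (Metric.sphere 0 1)
  have hK : IsCompact K := (isCompact_closedBall _ _).prod ((isCompact_closedBall _ _).prod
    (isCompact_sphere _ _))
  have hmem : ∀ n, (v₁ n, v₂ n, u n) ∈ K := by
    intro n
    refine ⟨?_, ?_, ?_⟩
    · exact mem_closedBall_zero_iff.2 (hv₁ n)
    · exact mem_closedBall_zero_iff.2 (hv₂ n)
    · exact mem_sphere_zero_iff_norm.2 (hu n)
  obtain ⟨⟨y₁, y₂, U⟩, hyK, φ, hφ, hlim⟩ := hK.tendsto_subseq hmem
  have hlim1 : Tendsto (fun n => v₁ (φ n)) atTop (𝓝 y₁) :=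
    (continuous_fst.tendsto _).comp hlim
  have hlim2 : Tendsto (fun n => v₂ (φ n)) atTop (𝓝 y₂) :=
    ((continuous_fst.comp continuous_snd).tendsto _).comp hlim
  have hlimU : Tendsto (fun n => u (φ n)) atTop (𝓝 U) :=
    ((continuous_snd.comp continuous_snd).tendsto _).comp hlim
  have hU : ‖U‖ = 1 := mem_sphere_zero_iff_norm.1 hyK.2.2
  have hU0 : U ≠ 0 := by rintro rfl; simp at hU
  have pass : ∀ (ζ x : ℂ) (v : ℕ → ℂ) (y : ℂ), ζ ≠ 0 → copy ζ x ⊆ D →
      (∀ n, (c n - x) / ζ - v n ∈ lat) → Tendsto (fun n => v (φ n)) atTop (𝓝 y) →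
      ∀ t : ℝ, ∀ l ∈ lat, ε ≤ ‖ζ * (y - l) + t * U‖ := by
    intro ζ x v y hζ hD hl hv t l hlat
    have h3 : Tendsto (fun n => ‖ζ * (v (φ n) - l) + t * u (φ n)‖) atTop
        (𝓝 ‖ζ * (y - l) + t * U‖) :=
      (((hv.sub_const l).const_mul ζ).add (hlimU.const_mul (t : ℂ))).norm
    refine ge_of_tendsto h3 ?_
    obtain ⟨N, hN⟩ := exists_nat_ge |t|
    filter_upwards [eventually_ge_atTop N] with n hn
    refine key ζ x v hζ hD hl (φ n) t ?_ l hlat
    have h4 : n ≤ φ n := hφ.id_le n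
    have h5 : (N : ℝ) ≤ (φ n : ℝ) := by exact_mod_cast hn.trans h4
    linarith
  -- the direction `U` is rational for both lattices
  have rat : ∀ (ζ x : ℂ) (v : ℕ → ℂ) (y : ℂ), ‖ζ‖ = 1 → ζ ≠ 0 → copy ζ x ⊆ D →
      (∀ n, (c n - x) / ζ - v n ∈ lat) → Tendsto (fun n => v (φ n)) atTop (𝓝 y) →
      ∃ s : ℝ, ∃ l ∈ lat, l ≠ 0 ∧ (s : ℂ) * (U / ζ) = l := by
    intro ζ x v y hn hζ hD hl hv
    by_contra hno
    push Not at hno
    obtain ⟨t, l, hlat, h3⟩ := line_dense (U / ζ) (div_ne_zero hU0 hζ) hno y ε hε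
    have h4 := pass ζ x v y hζ hD hl hv t l hlat
    have e : ζ * (y - l) + t * U = ζ * (y + t * (U / ζ) - l) := by
      field_simp
      ring
    rw [e, norm_mul, hn, one_mul] at h4
    linarith
  obtain ⟨s₁, l₁, m₁, n₁, e₁⟩ := rat ζ₁ x₁ v₁ y₁ h1 hζ1 hD1 hl₁ hlim1
  obtain ⟨s₂, l₂, m₂, n₂, e₂⟩ := rat ζ₂ x₂ v₂ y₂ h2 hζ2 hD2 hl₂ hlim2
  apply hr
  have hs₁ : (s₁ : ℂ) ≠ 0 := by
    intro h; rw [h, zero_mul] at e₁; exact n₁ e₁.symm
  -- `ζ₁ l₁ = s₁ U`, `ζ₂ l₂ = s₂ U`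
  have f₁ : ζ₁ * l₁ = s₁ * U := by rw [← e₁]; field_simp
  have f₂ : ζ₂ * l₂ = s₂ * U := by rw [← e₂]; field_simp
  have hs₂ : (s₂ : ℂ) ≠ 0 := by
    intro h; rw [h, zero_mul] at e₂; exact n₂ e₂.symm
  refine ⟨l₂, m₂, l₁, m₁, s₁ / s₂, n₂, n₁, ?_⟩
  push_cast
  field_simp
  linear_combination s₂ * f₁ - s₁ * f₂

/-! ### Commensurable copies -/

/-- if all rotations are commensurable to `ζ`, the union is not a dense forest -/
theorem not_forest {k : ℕ} (ζ : ℂ) (hζ : ‖ζ‖ = 1) (z x : Fin k → ℂ) (M : ℕ) (hM : 0 < M)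
    (hc : ∀ i, ∃ c ∈ lat, (M : ℂ) * z i = ζ * c) :
    ¬ DenseForest (⋃ i, copy (z i) (x i)) := by
  intro hF
  have hζ0 : ζ ≠ 0 := by rintro rfl; simp at hζ
  have hMr : (0 : ℝ) < M := by exact_mod_cast hM
  have h3 := sqrt3_pos
  set g : ℝ := Real.sqrt 3 / 2 with hg
  have hg0 : 0 < g := by positivity
  -- a height which is avoided
  let h : Fin k → ℝ := fun i => (x i / ζ).im
  obtain ⟨y, hy⟩ : ∃ y : ℝ, ∀ i, ∀ n : ℤ, (M : ℝ) * (y - h i) ≠ n * g := by
    by_contra hcon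
    push Not at hcon
    have hcount : (Set.univ : Set ℝ).Countable := by
      have : (Set.univ : Set ℝ) ⊆ ⋃ (i : Fin k), ⋃ (n : ℤ), {(n : ℝ) * g / M + h i} := by
        intro y _
        obtain ⟨i, n, hin⟩ := hcon y
        rw [Set.mem_iUnion]
        refine ⟨i, Set.mem_iUnion.2 ⟨n, ?_⟩⟩
        rw [Set.mem_singleton_iff]
        field_simp
        linarith
      exact (Set.countable_iUnion fun i => Set.countable_iUnion fun n =>
        Set.countable_singleton _).mono this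
    exact Set.not_countable_univ hcount
  -- the distance to the heights
  have hδ : ∃ δ : ℝ, 0 < δ ∧ ∀ i, ∀ n : ℤ, δ ≤ |(M : ℝ) * (y - h i) - n * g| := by
    have h4 : ∀ i, ∃ δ : ℝ, 0 < δ ∧ ∀ n : ℤ, δ ≤ |(M : ℝ) * (y - h i) - n * g| := by
      intro i
      set q := (M : ℝ) * (y - h i) / g with hq
      refine ⟨g * |q - round q|, ?_, fun n => ?_⟩
      · apply mul_pos hg0
        rw [abs_pos, sub_ne_zero]
        intro h5
        rw [hq, div_eq_iff hg0.ne'] at h5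
        exact hy i _ h5
      · have h5 := round_le q n
        have h6 : |(M : ℝ) * (y - h i) - n * g| = g * |q - n| := by
          have : (M : ℝ) * (y - h i) - n * g = g * (q - n) := by
            rw [hq]
            field_simp
          rw [this, abs_mul, abs_of_pos hg0]
        rw [h6]
        exact mul_le_mul_of_nonneg_left h5 hg0.le
    choose δ hδ1 hδ2 using h4
    rcases isEmpty_or_nonempty (Fin k) with he | hne
    · exact ⟨1, one_pos, fun i => (he.false i).elim⟩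
    · obtain ⟨i₀, hi₀⟩ := Finite.exists_min δ
      exact ⟨δ i₀, hδ1 i₀, fun i n => (hi₀ i).trans (hδ2 i n)⟩
  obtain ⟨δ, hδ0, hδ1⟩ := hδ
  obtain ⟨V, hV, hF⟩ := hF (δ / M) (by positivity)
  -- the segment
  obtain ⟨p, hp, d, hd, hdp⟩ := hF (ζ * (y * Complex.I)) (ζ * (V + y * Complex.I)) (by
    rw [dist_eq_norm]
    have : ζ * (y * Complex.I) - ζ * (V + y * Complex.I) = -(ζ * V) := by ring
    rw [this, norm_neg, norm_mul, hζ, one_mul, Complex.norm_real, Real.norm_eq_abs,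
      abs_of_pos hV])
  have hpim : (p / ζ).im = y := by
    rw [segment_eq_image_lineMap] at hp
    obtain ⟨s, -, rfl⟩ := hp
    rw [AffineMap.lineMap_apply]
    have : ((s • ((ζ * (V + y * Complex.I)) -ᵥ (ζ * (y * Complex.I))) +ᵥ
        (ζ * (y * Complex.I))) / ζ) = ((s * V : ℝ) : ℂ) + ((y : ℝ) : ℂ) * Complex.I := by
      rw [vsub_eq_sub, vadd_eq_add, Complex.real_smul]
      push_cast
      field_simp
      ring
    rw [this]
    simp
  obtain ⟨i, hi⟩ := Set.mem_iUnion.1 hd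
  obtain ⟨l, hl, rfl⟩ := hi
  obtain ⟨c, hc1, hc2⟩ := hc i
  obtain ⟨n, hn⟩ := im_lat (mul_mem hc1 hl)
  have hdim : (M : ℝ) * (((z i * l + x i) / ζ).im - h i) = n * g := by
    have h5 : ((z i * l + x i) / ζ).im - h i = ((z i * l) / ζ).im := by
      rw [add_div, Complex.add_im]
      ring
    have h6 : (M : ℝ) * ((z i * l) / ζ).im = (((M : ℝ) : ℂ) * ((z i * l) / ζ)).im := by
      rw [Complex.im_ofReal_mul]
    have h7 : (((M : ℝ) : ℂ) * ((z i * l) / ζ)) = c * l := by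
      push_cast
      field_simp
      linear_combination l * hc2
    rw [h5, h6, h7, hn]
  have h8 : |((z i * l + x i) / ζ).im - y| < δ / M := by
    have h9 : |(((z i * l + x i) - p) / ζ).im| ≤ ‖((z i * l + x i) - p) / ζ‖ :=
      Complex.abs_im_le_norm _
    rw [norm_div, hζ, div_one, ← dist_eq_norm, sub_div, Complex.sub_im, hpim] at h9
    exact h9.trans_lt hdp
  have h10 := hδ1 i n
  rw [← hdim] at h10
  have h11 : (M : ℝ) * (y - h i) - M * (((z i * l + x i) / ζ).im - h i) =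
      -(M * (((z i * l + x i) / ζ).im - y)) := by ring
  rw [h11, abs_neg, abs_mul, abs_of_pos hMr] at h10
  rw [lt_div_iff₀ hMr] at h8
  linarith

/-- if two rotations are not commensurable, there are small non-zero differences -/
theorem small (ζ : ℂ) (hζ : ∀ b ∈ lat, b ≠ 0 → ζ * b ∉ lat) (r : ℝ) (hr : 0 < r) :
    ∃ a ∈ lat, ∃ b ∈ lat, 0 < ‖ζ * b + a‖ ∧ ‖ζ * b + a‖ < r := by
  have h1 : ∀ n : ℕ, ∃ v : ℂ, ‖v‖ ≤ 1 ∧ ζ * n - v ∈ lat := fun n => reduce _
  choose v hv hl using h1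
  have hK : IsCompact (Metric.closedBall (0 : ℂ) 1) := isCompact_closedBall _ _
  obtain ⟨y, -, φ, hφ, hlim⟩ := hK.tendsto_subseq fun n => mem_closedBall_zero_iff.2 (hv n)
  have hc := hlim.cauchySeq
  obtain ⟨N, hN⟩ := Metric.cauchySeq_iff.1 hc r hr
  have h2 := hN (N + 1) (by omega) N le_rfl
  rw [dist_eq_norm] at h2
  have hlt : φ N < φ (N + 1) := hφ (Nat.lt_succ_self N)
  set b : ℂ := ((φ (N + 1) : ℤ) : ℂ) - ((φ N : ℤ) : ℂ) with hb
  have hbl : b ∈ lat := sub_mem (int_mem _) (int_mem _)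
  have hb0 : b ≠ 0 := by
    intro h0
    rw [hb, sub_eq_zero] at h0
    have : (φ (N + 1) : ℤ) = φ N := by exact_mod_cast h0
    omega
  have hal : (ζ * (φ N) - v (φ N)) - (ζ * (φ (N + 1)) - v (φ (N + 1))) ∈ lat :=
    sub_mem (hl _) (hl _)
  have e : ζ * b + ((ζ * (φ N) - v (φ N)) - (ζ * (φ (N + 1)) - v (φ (N + 1)))) =
      v (φ (N + 1)) - v (φ N) := by
    rw [hb]
    push_cast
    ring
  refine ⟨_, hal, b, hbl, ?_, ?_⟩
  · rw [norm_pos_iff]
    intro h0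
    apply hζ b hbl hb0
    rw [eq_neg_of_add_eq_zero_left h0]
    exact neg_mem hal
  · rw [e]
    exact h2

/-- a uniformly discrete union consists of commensurable lattices -/
theorem commensurable (D : Set ℂ) (hD : UniformlyDiscrete D) (ζ₁ ζ₂ x₁ x₂ : ℂ) (h2 : ‖ζ₂‖ = 1)
    (hD1 : copy ζ₁ x₁ ⊆ D) (hD2 : copy ζ₂ x₂ ⊆ D) :
    ∃ b ∈ lat, b ≠ 0 ∧ (ζ₁ / ζ₂) * b ∈ lat := by
  by_contra hcon
  push Not at hcon
  have hζ2 : ζ₂ ≠ 0 := by rintro rfl; simp at h2
  obtain ⟨r, hr, hD⟩ := hD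
  obtain ⟨a, ha, b, hb, hpos, hlt⟩ := small (ζ₁ / ζ₂) hcon r hr
  set h : ℂ := ζ₂ * ((ζ₁ / ζ₂) * b + a) with hh
  have hh2 : h = ζ₁ * b + ζ₂ * a := by rw [hh]; field_simp
  have hhn : ‖h‖ = ‖(ζ₁ / ζ₂) * b + a‖ := by rw [hh, norm_mul, h2, one_mul]
  have hh0 : h ≠ 0 := by rw [← norm_pos_iff, hhn]; exact hpos
  -- an element of `x₁ - x₂ + h lat` of norm at most `‖h‖`
  obtain ⟨l, hl, hll⟩ := near (-(x₁ - x₂) / h)
  have h3 : ‖x₁ - x₂ + h * l‖ ≤ ‖h‖ := by
    have e : x₁ - x₂ + h * l = -(h * (-(x₁ - x₂) / h - l)) := by field_simp; ring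
    rw [e, norm_neg, norm_mul]
    exact mul_le_of_le_one_right (norm_nonneg _) hll
  have main : ∀ m ∈ lat, x₁ - x₂ + h * m ≠ 0 → ‖x₁ - x₂ + h * m‖ ≤ ‖h‖ → False := by
    intro m hm hne hle
    have p1 : ζ₁ * (b * m) + x₁ ∈ D := hD1 ⟨_, mul_mem hb hm, rfl⟩
    have p2 : ζ₂ * (-(a * m)) + x₂ ∈ D := hD2 ⟨_, neg_mem (mul_mem ha hm), rfl⟩
    have e : (ζ₁ * (b * m) + x₁) - (ζ₂ * (-(a * m)) + x₂) = x₁ - x₂ + h * m := by
      rw [hh2]; ring
    have h4 := hD _ p1 _ p2 (fun h5 => hne (by rw [← e, h5, sub_self]))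
    rw [dist_eq_norm, e] at h4
    rw [hhn] at hle
    linarith
  by_cases h0 : x₁ - x₂ + h * l = 0
  · refine main (l + 1) (add_mem hl one_mem) ?_ ?_
    · have : x₁ - x₂ + h * (l + 1) = h := by linear_combination h0
      rw [this]
      exact hh0
    · have : x₁ - x₂ + h * (l + 1) = h := by linear_combination h0
      rw [this]
  · exact main l hl h0 h3

/-- a finite union of rotated and translated copies is never a uniformly discrete dense forest -/
theorem never_both {k : ℕ} (z x : Fin k → ℂ) (hz : ∀ i, ‖z i‖ = 1)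
    (hU : UniformlyDiscrete (⋃ i, copy (z i) (x i))) : ¬ DenseForest (⋃ i, copy (z i) (x i)) := by
  classical
  rcases Nat.eq_zero_or_pos k with hk | hk
  · subst hk
    exact not_forest 1 norm_one z x 1 one_pos fun i => i.elim0
  · let i₀ : Fin k := ⟨0, hk⟩
    have hz0 : z i₀ ≠ 0 := by
      intro h
      have := hz i₀
      rw [h, norm_zero] at this
      exact zero_ne_one this
    have hcom : ∀ i, ∃ n : ℕ, 0 < n ∧ ∃ c ∈ lat, (n : ℂ) * z i = z i₀ * c := by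
      intro i
      obtain ⟨b, hb, hb0, hc⟩ := commensurable _ hU (z i) (z i₀) (x i) (x i₀) (hz i₀)
        (Set.subset_iUnion (fun i => copy (z i) (x i)) i)
        (Set.subset_iUnion (fun i => copy (z i) (x i)) i₀)
      obtain ⟨n, hn, hbn⟩ := norm_lat hb hb0
      refine ⟨n, hn, (z i / z i₀) * b * (starRingEnd ℂ) b, mul_mem hc (conj_mem hb), ?_⟩
      rw [← hbn]
      field_simp
    choose n hn c hc hcn using hcom
    refine not_forest (z i₀) (hz i₀) z x (∏ i, n i) (Finset.prod_pos fun i _ => hn i) fun i => ?_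
    refine ⟨((∏ j ∈ Finset.univ.erase i, n j : ℕ) : ℂ) * c i, ?_, ?_⟩
    · exact mul_mem (by
        have := int_mem ((∏ j ∈ Finset.univ.erase i, n j : ℕ) : ℤ)
        rwa [Int.cast_natCast] at this) (hc i)
    · rw [← Finset.mul_prod_erase Finset.univ n (Finset.mem_univ i)]
      push_cast
      linear_combination (∏ j ∈ Finset.univ.erase i, (n j : ℂ)) * hcn i

/-! ### The exceptional angles are countable -/

theorem lat_countable : lat.Countable := by
  have : lat = Set.range fun c : ℤ × ℤ => (c.1 : ℂ) + (c.2 : ℂ) * w := by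
    ext z
    constructor
    · rintro ⟨a, b, rfl⟩; exact ⟨(a, b), rfl⟩
    · rintro ⟨⟨a, b⟩, rfl⟩; exact ⟨a, b, rfl⟩
  rw [this]
  exact Set.countable_range _

theorem rational2_countable : {ζ : ℂ | ‖ζ‖ = 1 ∧ Rational2 ζ}.Countable := by
  have hsub : {ζ : ℂ | ‖ζ‖ = 1 ∧ Rational2 ζ} ⊆
      (fun c : (ℂ × ℂ) × Bool => (((if c.2 then 1 else -1 : ℝ) * (‖c.1.2‖ / ‖c.1.1‖) : ℝ) : ℂ) *
        c.1.1 / c.1.2) '' ((lat ×ˢ lat) ×ˢ Set.univ) := by
    rintro ζ ⟨hζ, a, ha, b, hb, s, ha0, hb0, h⟩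
    have hna : 0 < ‖a‖ := norm_pos_iff.2 ha0
    have hnb : 0 < ‖b‖ := norm_pos_iff.2 hb0
    have hs : |s| = ‖b‖ / ‖a‖ := by
      have h1 := congrArg norm h
      rw [norm_mul, hζ, one_mul, norm_mul, Complex.norm_real, Real.norm_eq_abs] at h1
      rw [eq_div_iff hna.ne']
      exact h1.symm
    refine ⟨((a, b), decide (0 ≤ s)), ⟨⟨ha, hb⟩, Set.mem_univ _⟩, ?_⟩
    have e : ((if decide (0 ≤ s) then 1 else -1 : ℝ) * (‖b‖ / ‖a‖) : ℝ) = s := by
      rw [← hs]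
      by_cases h0 : 0 ≤ s
      · simp [h0, abs_of_nonneg h0]
      · simp [h0, abs_of_neg (not_le.1 h0)]
    show (((if decide (0 ≤ s) then 1 else -1 : ℝ) * (‖b‖ / ‖a‖) : ℝ) : ℂ) * a / b = ζ
    rw [e, ← h]
    field_simp
  refine Set.Countable.mono hsub (Set.Countable.image ?_ _)
  exact (lat_countable.prod lat_countable).prod Set.countable_univ

end Pool.Agent.R332.Forest
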