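import Mathlib

/-!
# Linear forms in the powers of `2 ^ (1 / n)`

For integers `q_0, …, q_{n-1}`, not all zero, `|∑ q_i θ ^ i| ≥ (2 n max |q_i|) ^ (-(n-1))`, where
`θ = 2 ^ (1 / n)`.
-/

open Polynomial IntermediateField

namespace Pool.Agent.R332

/-- `2 ^ (1 / n)` -/
noncomputable def theta (n : ℕ) : ℝ := (2 : ℝ) ^ ((n : ℝ)⁻¹)

theorem theta_pow {n : ℕ} (hn : 1 ≤ n) : theta n ^ n = 2 := by
  unfold theta
  rw [← Real.rpow_natCast, ← Real.rpow_mul (by norm_num), inv_mul_cancel₀, Real.rpow_one]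
  have : n ≠ 0 := by omega
  exact_mod_cast this

theorem irrZ {n : ℕ} (hn : 1 ≤ n) : Irreducible (X ^ n - C 2 : ℤ[X]) := by
  have hmonic : (X ^ n - C 2 : ℤ[X]).Monic := monic_X_pow_sub_C _ (by omega)
  have hdeg : (X ^ n - C 2 : ℤ[X]).degree = n := degree_X_pow_sub_C (by omega) _
  have hprime : (Ideal.span {(2 : ℤ)}).IsPrime := by
    rw [Ideal.span_singleton_prime (by norm_num)]
    exact Int.prime_two
  refine irreducible_of_eisenstein_criterion hprime ?_ ?_ ?_ ?_ hmonic.isPrimitive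
  · rw [hmonic.leadingCoeff]
    intro h
    rw [Ideal.mem_span_singleton] at h
    norm_num at h
  · intro m hm
    rw [hdeg] at hm
    have hm' : m < n := by exact_mod_cast hm
    rw [coeff_sub, coeff_X_pow, if_neg (by omega), coeff_C, Ideal.mem_span_singleton]
    split_ifs
    · exact ⟨-1, by ring⟩
    · exact ⟨0, by ring⟩
  · rw [hdeg]
    exact_mod_cast hn
  · rw [coeff_sub, coeff_X_pow, if_neg (by omega), coeff_C, if_pos rfl, Ideal.span_singleton_pow,
      Ideal.mem_span_singleton]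
    norm_num

theorem irrQ {n : ℕ} (hn : 1 ≤ n) : Irreducible (X ^ n - C 2 : ℚ[X]) := by
  have hmonic : (X ^ n - C 2 : ℤ[X]).Monic := monic_X_pow_sub_C _ (by omega)
  have h := (IsPrimitive.Int.irreducible_iff_irreducible_map_cast hmonic.isPrimitive).1 (irrZ hn)
  have e : (X ^ n - C 2 : ℤ[X]).map (Int.castRingHom ℚ) = X ^ n - C 2 := by
    rw [Polynomial.map_sub, Polynomial.map_pow, map_X, map_C]
    rfl
  rwa [e] at h

/-- `θ` as a complex number -/
noncomputable def thetaC (n : ℕ) : ℂ := ((theta n : ℝ) : ℂ)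

theorem thetaC_pow {n : ℕ} (hn : 1 ≤ n) : thetaC n ^ n = 2 := by
  unfold thetaC
  exact_mod_cast congrArg (fun x : ℝ => (x : ℂ)) (theta_pow hn)

theorem minpoly_theta {n : ℕ} (hn : 1 ≤ n) : minpoly ℚ (thetaC n) = X ^ n - C 2 := by
  symm
  refine minpoly.eq_of_irreducible_of_monic (irrQ hn) ?_ (monic_X_pow_sub_C _ (by omega))
  rw [map_sub, map_pow, aeval_X, aeval_C, thetaC_pow hn, sub_eq_zero]
  rfl

theorem integral_theta {n : ℕ} (hn : 1 ≤ n) : IsIntegral ℤ (thetaC n) := by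
  refine ⟨X ^ n - C 2, monic_X_pow_sub_C _ (by omega), ?_⟩
  rw [eval₂_sub, eval₂_pow, eval₂_X, eval₂_C, thetaC_pow hn, sub_eq_zero]
  rfl

/-- the powers `θ ^ i`, `i < n`, are linearly independent over `ℚ` -/
theorem sum_neQ {n : ℕ} (hn : 1 ≤ n) (q : Fin n → ℚ) (hq : q ≠ 0) :
    ∑ i, (q i : ℂ) * thetaC n ^ (i : ℕ) ≠ 0 := by
  intro h
  set R : ℚ[X] := ∑ i, C (q i) * X ^ (i : ℕ) with hR
  have h1 : aeval (thetaC n) R = 0 := by
    rw [hR, map_sum, ← h]
    refine Finset.sum_congr rfl fun i _ => ?_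
    rw [map_mul, aeval_C, map_pow, aeval_X]
    simp
  have h2 : R = 0 := by
    by_contra hne
    have h3 := minpoly.degree_le_of_ne_zero ℚ (thetaC n) hne h1
    rw [minpoly_theta hn, degree_X_pow_sub_C (by omega)] at h3
    have h4 : R.degree < n := by
      rw [hR]
      refine (degree_sum_le _ _).trans_lt ?_
      rw [Finset.sup_lt_iff (by exact_mod_cast WithBot.bot_lt_coe n)]
      intro i _
      refine (degree_C_mul_X_pow_le _ _).trans_lt ?_
      exact_mod_cast i.2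
    exact absurd (h3.trans_lt h4) (lt_irrefl _)
  apply hq
  funext i
  have h5 : R.coeff i = q i := by
    rw [hR, finsetSum_coeff, Finset.sum_eq_single i]
    · rw [coeff_C_mul, coeff_X_pow, if_pos rfl, mul_one]
    · intro j _ hji
      rw [coeff_C_mul, coeff_X_pow, if_neg, mul_zero]
      intro h6
      exact hji (Fin.ext h6.symm)
    · intro h6
      exact absurd (Finset.mem_univ i) h6
  rw [h2, coeff_zero] at h5
  exact h5.symm

/-- the real version -/
theorem sum_neR {n : ℕ} (hn : 1 ≤ n) (q : Fin n → ℚ) (hq : q ≠ 0) :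
    ∑ i, (q i : ℝ) * theta n ^ (i : ℕ) ≠ 0 := by
  intro h
  apply sum_neQ hn q hq
  have := congrArg (fun x : ℝ => (x : ℂ)) h
  unfold thetaC
  exact_mod_cast this

/-- the powers `θ ^ i`, `i < n`, are linearly independent over `ℤ` -/
theorem sum_ne {n : ℕ} (hn : 1 ≤ n) (q : Fin n → ℤ) (hq : q ≠ 0) :
    ∑ i, (q i : ℂ) * thetaC n ^ (i : ℕ) ≠ 0 := by
  have h := sum_neQ hn (fun i => (q i : ℚ)) (fun h => hq (funext fun i => by
    have h1 : (q i : ℚ) = 0 := congrFun h i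
    exact_mod_cast h1))
  simpa using h

theorem prod_bound {ι : Type*} [Fintype ι] [DecidableEq ι] (f : ι → ℝ) (B : ℝ)
    (h0 : ∀ i, 0 ≤ f i) (hB : ∀ i, f i ≤ B) (i₀ : ι) :
    ∏ i, f i ≤ f i₀ * B ^ (Fintype.card ι - 1) := by
  rw [← Finset.mul_prod_erase Finset.univ f (Finset.mem_univ i₀)]
  refine mul_le_mul_of_nonneg_left ?_ (h0 _)
  calc ∏ i ∈ Finset.univ.erase i₀, f i ≤ ∏ _i ∈ Finset.univ.erase i₀, B :=
        Finset.prod_le_prod (fun i _ => h0 i) fun i _ => hB i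
    _ = B ^ (Fintype.card ι - 1) := by
        rw [Finset.prod_const, Finset.card_erase_of_mem (Finset.mem_univ _), Finset.card_univ]

/-- the lower bound -/
theorem lower {n : ℕ} (hn : 1 ≤ n) (q : Fin n → ℤ) (hq : q ≠ 0) (Q : ℝ)
    (hQ : ∀ i, |(q i : ℝ)| ≤ Q) :
    1 ≤ |∑ i, (q i : ℝ) * theta n ^ (i : ℕ)| * (2 * n * Q) ^ (n - 1) := by
  classical
  have hint : IsIntegral ℚ (thetaC n) := (integral_theta hn).tower_top
  let L := ℚ⟮thetaC n⟯
  have : FiniteDimensional ℚ L := adjoin.finiteDimensional hint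
  let t : L := AdjoinSimple.gen ℚ (thetaC n)
  have ht : (t : ℂ) = thetaC n := AdjoinSimple.coe_gen ℚ (thetaC n)
  have htn : t ^ n = 2 := by
    apply Subtype.ext
    show ((t ^ n : L) : ℂ) = ((2 : L) : ℂ)
    push_cast
    rw [ht, thetaC_pow hn]
    rfl
  let x : L := ∑ i, (q i : L) * t ^ (i : ℕ)
  have hxC : (x : ℂ) = ((∑ i, (q i : ℝ) * theta n ^ (i : ℕ) : ℝ) : ℂ) := by
    have : (x : ℂ) = ∑ i, (q i : ℂ) * (t : ℂ) ^ (i : ℕ) := by
      show ((∑ i, (q i : L) * t ^ (i : ℕ) : L) : ℂ) = _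
      push_cast
      rfl
    rw [this, ht]
    push_cast
    rfl
  have hx0 : x ≠ 0 := by
    intro h
    have h1 : (x : ℂ) = 0 := by rw [h]; rfl
    rw [hxC] at h1
    push_cast at h1
    exact sum_ne hn q hq h1
  have hxint : IsIntegral ℤ x := by
    refine IsIntegral.sum _ fun i _ => IsIntegral.mul ?_ (IsIntegral.pow ?_ _)
    · exact isIntegral_algebraMap (R := ℤ) (A := L) (x := q i)
    · have h1 : IsIntegral ℤ (t : ℂ) := by rw [ht]; exact integral_theta hn
      exact (isIntegral_algHom_iff ((L.val).restrictScalars ℤ) L.val.injective).1 h1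
  -- the norm is a nonzero integer
  have hN0 : Algebra.norm ℚ x ≠ 0 := Algebra.norm_ne_zero_iff.2 hx0
  have hNint : IsIntegral ℤ (Algebra.norm ℚ x) := Algebra.isIntegral_norm ℚ hxint
  obtain ⟨z, hz⟩ := IsIntegrallyClosed.isIntegral_iff.1 hNint
  have hz0 : z ≠ 0 := by
    rintro rfl
    rw [map_zero] at hz
    exact hN0 hz.symm
  have hprod := Algebra.norm_eq_prod_embeddings (K := ℚ) (L := L) (E := ℂ) x
  have h1 : (1 : ℝ) ≤ ∏ σ : L →ₐ[ℚ] ℂ, ‖σ x‖ := by
    rw [← norm_prod, ← hprod, ← hz]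
    have e : (algebraMap ℚ ℂ) ((algebraMap ℤ ℚ) z) = ((z : ℝ) : ℂ) := by simp
    rw [e, Complex.norm_real, Real.norm_eq_abs]
    exact_mod_cast Int.one_le_abs hz0
  -- bound for the conjugates
  have hQ0 : 0 ≤ Q := (abs_nonneg _).trans (hQ ⟨0, by omega⟩)
  have hσ : ∀ σ : L →ₐ[ℚ] ℂ, ‖σ x‖ ≤ 2 * n * Q := by
    intro σ
    have h2 : ‖σ t‖ ^ n = 2 := by
      rw [← norm_pow, ← map_pow, htn]
      have : σ 2 = 2 := by
        have := map_ofNat σ 2
        exact this
      rw [this]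
      norm_num
    have h3 : 1 ≤ ‖σ t‖ := by
      by_contra hcon
      push Not at hcon
      have := pow_le_one₀ (norm_nonneg (σ t)) hcon.le (n := n)
      linarith
    have h4 : ∀ i : Fin n, ‖σ t‖ ^ (i : ℕ) ≤ 2 := fun i => by
      rw [← h2]
      exact pow_le_pow_right₀ h3 i.2.le
    have e : σ x = ∑ i, (q i : ℂ) * σ t ^ (i : ℕ) := by
      show σ (∑ i, (q i : L) * t ^ (i : ℕ)) = _
      rw [map_sum]
      refine Finset.sum_congr rfl fun i _ => ?_
      rw [map_mul, map_pow, map_intCast]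
    rw [e]
    calc ‖∑ i, (q i : ℂ) * σ t ^ (i : ℕ)‖ ≤ ∑ i : Fin n, ‖(q i : ℂ) * σ t ^ (i : ℕ)‖ :=
          norm_sum_le _ _
      _ ≤ ∑ _i : Fin n, Q * 2 := by
          refine Finset.sum_le_sum fun i _ => ?_
          rw [norm_mul, norm_pow]
          have e2 : ‖((q i : ℤ) : ℂ)‖ = |(q i : ℝ)| := by
            rw [Complex.norm_intCast]
          rw [e2]
          exact mul_le_mul (hQ i) (h4 i) (by positivity) hQ0
      _ = 2 * n * Q := by
          rw [Finset.sum_const, Finset.card_univ, Fintype.card_fin, nsmul_eq_mul]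
          ring
  -- the number of embeddings
  have hcard : Fintype.card (L →ₐ[ℚ] ℂ) = n := by
    rw [AlgHom.card ℚ L ℂ, adjoin.finrank hint, minpoly_theta hn, natDegree_X_pow_sub_C]
  have h5 := prod_bound (fun σ : L →ₐ[ℚ] ℂ => ‖σ x‖) (2 * n * Q) (fun σ => norm_nonneg _) hσ L.val
  rw [hcard] at h5
  refine h1.trans (h5.trans (le_of_eq ?_))
  congr 1
  show ‖(x : ℂ)‖ = _
  rw [hxC, Complex.norm_real, Real.norm_eq_abs]

end Pool.Agent.R332
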