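import Mathlib

/-!
# Mixed lonely runner conditions for three speeds
-/

namespace Pool.Agent.R332.Mixed

/-- the distance of `x` to the nearest integer is at least `δ` -/
def far (δ x : ℝ) : Prop := ∀ n : ℤ, δ ≤ |x - n|

theorem far_of {δ x : ℝ} (n : ℤ) (h1 : δ ≤ x - n) (h2 : x - n ≤ 1 - δ) : far δ x := by
  intro m
  rcases le_or_gt m n with h | h
  · have : (m : ℝ) ≤ n := by exact_mod_cast h
    rw [le_abs]
    left; linarith
  · have : (n : ℝ) + 1 ≤ m := by exact_mod_cast h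
    rw [le_abs]
    right; linarith

theorem far_congr {δ x y : ℝ} (m : ℤ) (h : x = y + m) (hy : far δ y) : far δ x := by
  intro n
  have := hy (n - m)
  push_cast at this
  rw [h]
  have e : y + m - n = y - (n - m) := by ring
  rw [e]
  exact this

theorem far_neg {δ x : ℝ} (h : far δ x) : far δ (-x) := by
  intro n
  have := h (-n)
  push_cast at this
  have e : -x - n = -(x - -n) := by ring
  rw [e, abs_neg]
  exact this

theorem far_mono {δ δ' x : ℝ} (h : δ' ≤ δ) (hx : far δ x) : far δ' x := fun n => h.trans (hx n)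

/-- shifting the time -/
theorem shift {a p : ℤ} (hap : IsCoprime a p) (hp : (p : ℝ) ≠ 0) (τ X : ℝ) (M : ℤ)
    (h : (p : ℝ) * X - a * τ = M) : ∃ j K : ℤ, (a : ℝ) * ((τ + j) / p) = X + K := by
  obtain ⟨u, v, huv⟩ := hap
  refine ⟨u * M, -(v * M), ?_⟩
  have h1 : (u : ℝ) * a + v * p = 1 := by exact_mod_cast huv
  push_cast
  have e : (a : ℝ) * ((τ + u * M) / p) = (a * (τ + u * M)) / p := by ring
  rw [e, div_eq_iff hp]
  linear_combination (M : ℝ) * h1 - h

theorem exists_X (p : ℤ) (hp : 0 < p) (y L : ℝ) :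
    ∃ X : ℝ, L ≤ X ∧ X ≤ L + 1 / p ∧ ∃ M : ℤ, (p : ℝ) * X - y = M := by
  have hp' : (0 : ℝ) < p := by exact_mod_cast hp
  refine ⟨(y + ⌈p * L - y⌉) / p, ?_, ?_, ⌈p * L - y⌉, ?_⟩
  · rw [le_div_iff₀ hp']
    have := Int.le_ceil (p * L - y)
    linarith
  · rw [div_le_iff₀ hp']
    have := Int.ceil_lt_add_one (p * L - y)
    have e : (L + 1 / p) * (p : ℝ) = L * p + 1 := by field_simp
    rw [e]
    linarith
  · field_simp
    ring

/-- a multiple of `1 / e` at which `b` is far from the integers -/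
theorem div_far {e b : ℤ} (he : e ≠ 0) (hb : ¬ e ∣ b) :
    ∃ (τ : ℝ) (K : ℤ), (e : ℝ) * τ = K ∧ far (1 / 3) (b * τ) := by
  set g : ℕ := Int.gcd b e with hg
  have hg0 : 0 < g := Int.gcd_pos_of_ne_zero_right _ he
  obtain ⟨b1, hb1⟩ : (g : ℤ) ∣ b := Int.gcd_dvd_left ..
  obtain ⟨e1, he1⟩ : (g : ℤ) ∣ e := Int.gcd_dvd_right ..
  have hcop : IsCoprime b1 e1 := by
    have h := Int.gcd_eq_gcd_ab b e
    refine ⟨Int.gcdA b e, Int.gcdB b e, ?_⟩
    have hgz : (g : ℤ) ≠ 0 := by exact_mod_cast hg0.ne'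
    apply mul_left_cancel₀ hgz
    rw [← hg] at h
    linear_combination -h - Int.gcdA b e * hb1 - Int.gcdB b e * he1
  obtain ⟨u, v, huv⟩ := hcop
  have hb1e : 2 ≤ |e1| := by
    by_contra hlt
    push Not at hlt
    have he10 : e1 ≠ 0 := by
      rintro rfl
      simp at he1
      exact he he1
    have : |e1| = 1 := by
      have := abs_pos.2 he10
      omega
    apply hb
    rw [hb1, he1]
    apply mul_dvd_mul_left
    rcases (abs_eq (by norm_num : (0:ℤ) ≤ 1)).1 this with h | h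
    · rw [h]; exact one_dvd _
    · rw [h]; exact (neg_dvd.2 (one_dvd _))
  -- r / |e1| in the middle third
  set r : ℤ := |e1| / 2 with hr
  have hr1 : |e1| ≤ 3 * r := by omega
  have hr2 : 2 * r ≤ |e1| := by omega
  have hgr : (g : ℝ) ≠ 0 := by exact_mod_cast hg0.ne'
  have he1r : (e1 : ℝ) ≠ 0 := by
    intro h0
    have : e1 = 0 := by exact_mod_cast h0
    rw [this] at hb1e
    simp at hb1e
  refine ⟨(u * r : ℤ) / (e1 * g), u * r, ?_, ?_⟩
  · rw [he1]
    push_cast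
    field_simp
  · have hE : (0 : ℝ) < |(e1 : ℝ)| := abs_pos.2 he1r
    have key : far (1 / 3) ((r : ℝ) / e1) := by
      have hr1' : |(e1 : ℝ)| ≤ 3 * r := by exact_mod_cast hr1
      have hr2' : 2 * (r : ℝ) ≤ |(e1 : ℝ)| := by exact_mod_cast hr2
      have base : far (1 / 3) ((r : ℝ) / |(e1 : ℝ)|) := by
        apply far_of 0
        · rw [Int.cast_zero, sub_zero, le_div_iff₀ hE]
          linarith
        · rw [Int.cast_zero, sub_zero, div_le_iff₀ hE]
          linarith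
      rcases abs_choice (e1 : ℝ) with h | h
      · rwa [h] at base
      · rw [h] at base
        have := far_neg base
        rwa [div_neg, neg_neg] at this
    have h1 : (u : ℝ) * b1 + v * e1 = 1 := by exact_mod_cast huv
    apply far_congr (-(v * r)) _ key
    rw [hb1]
    push_cast
    field_simp
    linear_combination (r : ℝ) * h1

theorem two_far {e b : ℤ} (he : e ≠ 0) (hb : b ≠ 0) (hbe : |b| ≠ |e|) :
    ∃ (τ : ℝ) (K : ℤ), |(e : ℝ) * τ - K| ≤ 1 / 8 ∧ far (1 / 4) (b * τ) := by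
  by_cases hd : e ∣ b
  · obtain ⟨m, hm⟩ := hd
    have hm0 : m ≠ 0 := by
      rintro rfl
      simp at hm
      exact hb hm
    have hm1 : 2 ≤ |m| := by
      have h1 := abs_pos.2 hm0
      by_contra h2
      push Not at h2
      have : |m| = 1 := by omega
      rw [hm, abs_mul, this, mul_one] at hbe
      exact hbe rfl
    have hmr : (2 : ℝ) ≤ |(m : ℝ)| := by exact_mod_cast hm1
    have hmr0 : (m : ℝ) ≠ 0 := by exact_mod_cast hm0
    have her : (e : ℝ) ≠ 0 := by exact_mod_cast he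
    refine ⟨1 / (4 * m * e), 0, ?_, ?_⟩
    · have e1 : (e : ℝ) * (1 / (4 * m * e)) - ((0 : ℤ) : ℝ) = 1 / (4 * m) := by
        push_cast
        field_simp
        simp
      rw [e1, abs_div, abs_mul]
      rw [abs_one, div_le_div_iff₀ (by positivity) (by norm_num)]
      have : |(4:ℝ)| = 4 := by norm_num
      rw [this]
      linarith
    · apply far_of 0
      · rw [hm]
        push_cast
        have : (e : ℝ) * m * (1 / (4 * m * e)) = 1 / 4 := by field_simp
        rw [this]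
        norm_num
      · rw [hm]
        push_cast
        have : (e : ℝ) * m * (1 / (4 * m * e)) = 1 / 4 := by field_simp
        rw [this]
        norm_num
  · obtain ⟨τ, K, h1, h2⟩ := div_far he hd
    refine ⟨τ, K, ?_, far_mono (by norm_num) h2⟩
    rw [h1]
    simp

theorem two_far' {e b : ℤ} (he : e ≠ 0) (hb : b ≠ 0) :
    ∃ (τ : ℝ) (K : ℤ), |(e : ℝ) * τ - K| ≤ 1 / 4 ∧ far (1 / 4) (b * τ) := by
  by_cases hd : e ∣ b
  · obtain ⟨m, hm⟩ := hd
    have hm0 : m ≠ 0 := by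
      rintro rfl
      simp at hm
      exact hb hm
    have hm1 : 1 ≤ |m| := by
      have h1 := abs_pos.2 hm0
      omega
    have hmr : (1 : ℝ) ≤ |(m : ℝ)| := by exact_mod_cast hm1
    have hmr0 : (m : ℝ) ≠ 0 := by exact_mod_cast hm0
    have her : (e : ℝ) ≠ 0 := by exact_mod_cast he
    refine ⟨1 / (4 * m * e), 0, ?_, ?_⟩
    · have e1 : (e : ℝ) * (1 / (4 * m * e)) - ((0 : ℤ) : ℝ) = 1 / (4 * m) := by
        push_cast
        field_simp
        simp
      rw [e1, abs_div, abs_mul]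
      rw [abs_one, div_le_div_iff₀ (by positivity) (by norm_num)]
      have : |(4:ℝ)| = 4 := by norm_num
      rw [this]
      linarith
    · apply far_of 0
      · rw [hm]
        push_cast
        have : (e : ℝ) * m * (1 / (4 * m * e)) = 1 / 4 := by field_simp
        rw [this]
        norm_num
      · rw [hm]
        push_cast
        have : (e : ℝ) * m * (1 / (4 * m * e)) = 1 / 4 := by field_simp
        rw [this]
        norm_num
  · obtain ⟨τ, K, h1, h2⟩ := div_far he hd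
    refine ⟨τ, K, ?_, far_mono (by norm_num) h2⟩
    rw [h1]
    simp

/-- three conditions at once -/
def Q3 (α β γ : ℝ) (a b c : ℤ) : Prop :=
  ∃ t : ℝ, far α (a * t) ∧ far β (b * t) ∧ far γ (c * t)

/-- two conditions at once -/
def Q2 (α β : ℝ) (a b : ℤ) : Prop :=
  ∃ t : ℝ, far α (a * t) ∧ far β (b * t)

theorem far_neg' {δ : ℝ} {a : ℤ} {t : ℝ} (h : far δ (((-a : ℤ) : ℝ) * t)) : far δ (a * t) := by
  have := far_neg h
  push_cast at this
  rwa [neg_mul, neg_neg] at this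

theorem Q3.negb {α β γ : ℝ} {a b c : ℤ} (h : Q3 α β γ a (-b) c) : Q3 α β γ a b c := by
  obtain ⟨t, h1, h2, h3⟩ := h
  exact ⟨t, h1, far_neg' h2, h3⟩

theorem Q3.negc {α β γ : ℝ} {a b c : ℤ} (h : Q3 α β γ a b (-c)) : Q3 α β γ a b c := by
  obtain ⟨t, h1, h2, h3⟩ := h
  exact ⟨t, h1, h2, far_neg' h3⟩

theorem Q3.swap {α β γ : ℝ} {a b c : ℤ} (h : Q3 α γ β a c b) : Q3 α β γ a b c := by
  obtain ⟨t, h1, h2, h3⟩ := h
  exact ⟨t, h1, h3, h2⟩

theorem Q3.swap12 {α β γ : ℝ} {a b c : ℤ} (h : Q3 β α γ b a c) : Q3 α β γ a b c := by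
  obtain ⟨t, h1, h2, h3⟩ := h
  exact ⟨t, h2, h1, h3⟩

theorem Q3.scale {α β γ : ℝ} {a b c : ℤ} {n : ℤ} (hn : n ≠ 0) (h : Q3 α β γ a b c) :
    Q3 α β γ (n * a) (n * b) (n * c) := by
  obtain ⟨t, h1, h2, h3⟩ := h
  have hn' : (n : ℝ) ≠ 0 := by exact_mod_cast hn
  have key : ∀ x : ℤ, ((n * x : ℤ) : ℝ) * (t / n) = x * t := by
    intro x
    push_cast
    field_simp
  refine ⟨t / n, ?_, ?_, ?_⟩ <;> rw [key] <;> assumption

theorem Q2.scale {α β : ℝ} {a b : ℤ} {n : ℤ} (hn : n ≠ 0) (h : Q2 α β a b) :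
    Q2 α β (n * a) (n * b) := by
  obtain ⟨t, h1, h2⟩ := h
  have hn' : (n : ℝ) ≠ 0 := by exact_mod_cast hn
  have key : ∀ x : ℤ, ((n * x : ℤ) : ℝ) * (t / n) = x * t := by
    intro x
    push_cast
    field_simp
  refine ⟨t / n, ?_, ?_⟩ <;> rw [key] <;> assumption

theorem Q2.swap {α β : ℝ} {a b : ℤ} (h : Q2 β α b a) : Q2 α β a b := by
  obtain ⟨t, h1, h2⟩ := h
  exact ⟨t, h2, h1⟩

theorem far_odd_half {a : ℤ} (ha : Odd a) : far (1 / 2) (a * (1 / 2)) := by
  obtain ⟨m, hm⟩ := ha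
  apply far_of m
  · rw [hm]; push_cast; linarith
  · rw [hm]; push_cast; linarith

/-- multiples of `p` do not see the shift -/
theorem far_mult {δ : ℝ} {p b' : ℤ} (hp : (p : ℝ) ≠ 0) (τ : ℝ) (j : ℤ) (h : far δ (b' * τ)) :
    far δ (((p * b' : ℤ) : ℝ) * ((τ + j) / p)) := by
  apply far_congr (b' * j) _ h
  push_cast
  field_simp

/-- the position of `κ a + p e` after the shift -/
theorem far_comb {δ : ℝ} {a p κ e j K : ℤ} (hp : (p : ℝ) ≠ 0) (τ X : ℝ)
    (hX : (a : ℝ) * ((τ + j) / p) = X + K) (h : far δ (κ * X + e * τ)) :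
    far δ (((κ * a + p * e : ℤ) : ℝ) * ((τ + j) / p)) := by
  apply far_congr (κ * K + e * j) _ h
  have e1 : ((κ * a + p * e : ℤ) : ℝ) * ((τ + j) / p) =
      κ * ((a : ℝ) * ((τ + j) / p)) + e * (τ + j) := by
    push_cast
    field_simp
  rw [e1, hX]
  push_cast
  ring

/-- `(1/2, β)` on two speeds, first even and second odd -/
theorem Q2_strong : ∀ n : ℕ, ∀ a b : ℤ, a.natAbs + b.natAbs ≤ n → a ≠ 0 → b ≠ 0 →
    Q2 (7 / 20) (1 / 5) a b ∧ Q2 (1 / 4) (1 / 4) a b := by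
  intro n
  induction n with
  | zero =>
    intro a b h ha hb
    exact absurd (Int.natAbs_eq_zero.1 (by omega)) ha
  | succ n ih =>
    intro a b h ha hb
    have h2 : ((2 : ℤ) : ℝ) ≠ 0 := by norm_num
    rcases Int.even_or_odd a with hae | hao
    · rcases Int.even_or_odd b with hbe | hbo
      · obtain ⟨a', rfl⟩ := hae.two_dvd
        obtain ⟨b', rfl⟩ := hbe.two_dvd
        have ha' : a' ≠ 0 := by rintro rfl; simp at ha
        have hb' : b' ≠ 0 := by rintro rfl; simp at hb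
        have := ih a' b' (by
          have h3 : (2 * a').natAbs = 2 * a'.natAbs := by simp [Int.natAbs_mul]
          have h4 : (2 * b').natAbs = 2 * b'.natAbs := by simp [Int.natAbs_mul]
          have h5 : 0 < a'.natAbs := Int.natAbs_pos.2 ha'
          omega) ha' hb'
        exact ⟨this.1.scale (by norm_num), this.2.scale (by norm_num)⟩
      · -- a even, b odd
        obtain ⟨a', rfl⟩ := hae.two_dvd
        have ha' : a' ≠ 0 := by rintro rfl; simp at ha
        have ha'r : (a' : ℝ) ≠ 0 := by exact_mod_cast ha'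
        have hcop : IsCoprime b 2 := by
          obtain ⟨m, rfl⟩ := hbo
          exact ⟨1, -m, by ring⟩
        set τ : ℝ := 1 / (2 * a') with hτ
        obtain ⟨X, hX1, hX2, M, hM⟩ := exists_X 2 (by norm_num) (b * τ) (1 / 4)
        obtain ⟨j, K, hj⟩ := shift hcop h2 τ X M hM
        have hfa : far (1 / 2) (a' * τ) := by
          apply far_of 0
          · rw [hτ]; push_cast
            have : (a' : ℝ) * (1 / (2 * a')) = 1 / 2 := by field_simp
            rw [this]; norm_num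
          · rw [hτ]; push_cast
            have : (a' : ℝ) * (1 / (2 * a')) = 1 / 2 := by field_simp
            rw [this]; norm_num
        have hfb : far (1 / 4) ((b : ℝ) * ((τ + j) / ((2 : ℤ) : ℝ))) := by
          apply far_congr K hj
          apply far_of 0
          · push_cast; linarith
          · push_cast at hX2 ⊢; linarith
        have hfa' := far_mult (p := 2) h2 τ j hfa
        exact ⟨⟨_, far_mono (by norm_num) hfa', far_mono (by norm_num) hfb⟩,
          ⟨_, far_mono (by norm_num) hfa', far_mono (by norm_num) hfb⟩⟩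
    · rcases Int.even_or_odd b with hbe | hbo
      · -- a odd, b even
        obtain ⟨b', rfl⟩ := hbe.two_dvd
        have hb' : b' ≠ 0 := by rintro rfl; simp at hb
        have hb'r : (b' : ℝ) ≠ 0 := by exact_mod_cast hb'
        have hcop : IsCoprime a 2 := by
          obtain ⟨m, rfl⟩ := hao
          exact ⟨1, -m, by ring⟩
        obtain ⟨τ, K0, hτ1, hτ2⟩ := two_far' ha hb'
        rw [abs_le] at hτ1
        obtain ⟨hτ1, hτ1'⟩ := hτ1
        set X : ℝ := (a * τ - K0 + 1) / 2 with hX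
        obtain ⟨j, K, hj⟩ := shift hcop h2 τ X (1 - K0) (by rw [hX]; push_cast; ring)
        have hfa : far (7 / 20) ((a : ℝ) * ((τ + j) / ((2 : ℤ) : ℝ))) := by
          apply far_congr K hj
          apply far_of 0
          · push_cast; linarith
          · push_cast; linarith
        have hfb' := far_mult (p := 2) h2 τ j hτ2
        exact ⟨⟨_, hfa, far_mono (by norm_num) hfb'⟩,
          ⟨_, far_mono (by norm_num) hfa, hfb'⟩⟩
      · have h1 := far_odd_half hao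
        have h2 := far_odd_half hbo
        exact ⟨⟨_, far_mono (by norm_num) h1, far_mono (by norm_num) h2⟩,
          ⟨_, far_mono (by norm_num) h1, far_mono (by norm_num) h2⟩⟩

theorem Q2a {a b : ℤ} (ha : a ≠ 0) (hb : b ≠ 0) : Q2 (7 / 20) (1 / 5) a b :=
  (Q2_strong _ a b le_rfl ha hb).1

theorem Q2b {a b : ℤ} (ha : a ≠ 0) (hb : b ≠ 0) : Q2 (1 / 4) (1 / 4) a b :=
  (Q2_strong _ a b le_rfl ha hb).2

theorem coprime_two {a : ℤ} (ha : Odd a) : IsCoprime a 2 := by
  obtain ⟨m, rfl⟩ := ha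
  exact ⟨1, -m, by ring⟩

theorem coprime_four {a : ℤ} (ha : Odd a) : IsCoprime a 4 := by
  have h := coprime_two ha
  have := h.mul_right h
  norm_num at this
  exact this

theorem far_half {a' : ℤ} (ha' : a' ≠ 0) (σ : ℝ) (hσ : σ = 1 ∨ σ = -1) :
    far (1 / 2) (a' * (σ / (2 * a'))) := by
  have ha'r : (a' : ℝ) ≠ 0 := by exact_mod_cast ha'
  have e : (a' : ℝ) * (σ / (2 * a')) = σ / 2 := by field_simp
  rw [e]
  rcases hσ with rfl | rfl
  · apply far_of 0 <;> norm_num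
  · apply far_of (-1) <;> norm_num

theorem lr_two_even {a b' c' : ℤ} (ha : Odd a) (hb' : b' ≠ 0) (hc' : c' ≠ 0) :
    Q3 (1 / 4) (1 / 4) (1 / 4) a (2 * b') (2 * c') := by
  have h2 : ((2 : ℤ) : ℝ) ≠ 0 := by norm_num
  obtain ⟨τ, h3, h4⟩ := Q2b hb' hc'
  obtain ⟨X, hX1, hX2, M, hM⟩ := exists_X 2 (by norm_num) (a * τ) (1 / 4)
  obtain ⟨j, K, hj⟩ := shift (coprime_two ha) h2 τ X M hM
  refine ⟨_, ?_, far_mult (p := 2) h2 τ j h3, far_mult (p := 2) h2 τ j h4⟩
  apply far_congr K hj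
  apply far_of 0
  · push_cast; linarith
  · push_cast at hX2 ⊢; linarith

theorem lr_one_even4 {a' b e : ℤ} (hb : Odd b) (ha' : a' ≠ 0) (he : e ≠ 0) :
    Q3 (1 / 4) (1 / 4) (1 / 4) (4 * a') b (1 * b + 4 * e) := by
  have h4 : ((4 : ℤ) : ℝ) ≠ 0 := by norm_num
  by_cases hae : |a'| = |e|
  · have her : (e : ℝ) ≠ 0 := by exact_mod_cast he
    set τ : ℝ := 1 / (4 * e) with hτ
    have hτe : (e : ℝ) * τ = 1 / 4 := by rw [hτ]; field_simp
    have hbase : far (1 / 4) ((e : ℝ) * τ) := by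
      rw [hτe]; apply far_of 0 <;> norm_num
    have h1 : far (1 / 4) ((a' : ℝ) * τ) := by
      rcases abs_eq_abs.1 hae with h | h
      · rw [h]; exact hbase
      · rw [h]
        push_cast
        rw [neg_mul]
        exact far_neg hbase
    obtain ⟨X, hX1, hX2, M, hM⟩ := exists_X 4 (by norm_num) (b * τ) (1 / 4)
    obtain ⟨j, K, hj⟩ := shift (coprime_four hb) h4 τ X M hM
    push_cast at hX2
    refine ⟨_, far_mult (p := 4) h4 τ j h1, ?_, far_comb h4 τ X hj ?_⟩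
    · apply far_congr K hj
      apply far_of 0 <;> push_cast <;> linarith
    · rw [hτe]
      apply far_of 0 <;> push_cast <;> linarith
  · obtain ⟨τ, K0, h1, h2⟩ := two_far he ha' hae
    rw [abs_le] at h1
    obtain ⟨h1, h1'⟩ := h1
    obtain ⟨X, hX1, hX2, M, hM⟩ := exists_X 4 (by norm_num) (b * τ) (3 / 8)
    obtain ⟨j, K, hj⟩ := shift (coprime_four hb) h4 τ X M hM
    push_cast at hX2
    refine ⟨_, far_mult (p := 4) h4 τ j h2, ?_, far_comb h4 τ X hj ?_⟩
    · apply far_congr K hj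
      apply far_of 0 <;> push_cast <;> linarith
    · apply far_of K0 <;> push_cast <;> linarith

theorem lr_one_even2 {a' b e : ℤ} (hb : Odd b) (ha' : Odd a') (he : e ≠ 0) (hee : Even e) :
    Q3 (1 / 4) (1 / 4) (1 / 4) (2 * a') b (1 * b + 2 * e) := by
  have h2 : ((2 : ℤ) : ℝ) ≠ 0 := by norm_num
  have hd : ¬ e ∣ a' := by
    intro h
    obtain ⟨m, hm⟩ := hee.two_dvd.trans h
    obtain ⟨l, hl⟩ := ha'
    omega
  obtain ⟨τ, K0, h1, h3⟩ := div_far he hd
  obtain ⟨X, hX1, hX2, M, hM⟩ := exists_X 2 (by norm_num) (b * τ) (1 / 4)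
  obtain ⟨j, K, hj⟩ := shift (coprime_two hb) h2 τ X M hM
  push_cast at hX2
  refine ⟨_, far_mult (p := 2) h2 τ j (far_mono (by norm_num) h3), ?_, far_comb h2 τ X hj ?_⟩
  · apply far_congr K hj
    apply far_of 0 <;> push_cast <;> linarith
  · rw [h1]
    apply far_of K0 <;> push_cast <;> linarith

theorem lr_one_even {a b c : ℤ} (ha : Even a) (ha0 : a ≠ 0) (hb : Odd b) (hc : Odd c)
    (h1 : b ≠ c) (h2 : b ≠ -c) : Q3 (1 / 4) (1 / 4) (1 / 4) a b c := by
  obtain ⟨a', rfl⟩ := ha.two_dvd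
  have ha' : a' ≠ 0 := by rintro rfl; simp at ha0
  obtain ⟨b0, hb0⟩ := id hb
  obtain ⟨c0, hc0⟩ := id hc
  rcases Int.even_or_odd a' with h | h
  · obtain ⟨a2, rfl⟩ := h.two_dvd
    have ha2 : a2 ≠ 0 := by rintro rfl; simp at ha'
    have e4 : 2 * (2 * a2) = 4 * a2 := by ring
    rw [e4]
    rcases Int.even_or_odd (c0 - b0) with h' | h'
    · obtain ⟨e, he⟩ := h'.two_dvd
      have hc' : c = 1 * b + 4 * e := by omega
      have he0 : e ≠ 0 := by rintro rfl; omega
      rw [hc']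
      exact lr_one_even4 hb ha2 he0
    · obtain ⟨e, he⟩ := h'
      -- -c = b + 4 e'
      have hc' : -c = 1 * b + 4 * (-(b0 + 1 + e)) := by omega
      have he0 : -(b0 + 1 + e) ≠ 0 := by omega
      apply Q3.negc
      rw [hc']
      exact lr_one_even4 hb ha2 he0
  · rcases Int.even_or_odd (c0 - b0) with h' | h'
    · have hc' : c = 1 * b + 2 * (c0 - b0) := by omega
      have he0 : c0 - b0 ≠ 0 := by omega
      rw [hc']
      exact lr_one_even2 hb h he0 h'
    · have hc' : -c = 1 * b + 2 * (-(c0 + b0 + 1)) := by omega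
      have he0 : -(c0 + b0 + 1) ≠ 0 := by omega
      apply Q3.negc
      rw [hc']
      refine lr_one_even2 hb h he0 ?_
      obtain ⟨e, he⟩ := h'
      exact ⟨-(b0 + e + 1), by omega⟩

theorem lr3 : ∀ n : ℕ, ∀ a b c : ℤ, a.natAbs + b.natAbs + c.natAbs ≤ n → a ≠ 0 → b ≠ 0 → c ≠ 0 →
    a ≠ b → a ≠ -b → a ≠ c → a ≠ -c → b ≠ c → b ≠ -c → Q3 (1 / 4) (1 / 4) (1 / 4) a b c := by
  intro n
  induction n with
  | zero =>
    intro a b c h ha
    exact absurd (Int.natAbs_eq_zero.1 (by omega)) ha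
  | succ n ih =>
    intro a b c h ha hb hc h1 h2 h3 h4 h5 h6
    rcases Int.even_or_odd a with hae | hao
    · rcases Int.even_or_odd b with hbe | hbo
      · rcases Int.even_or_odd c with hce | hco
        · obtain ⟨a', rfl⟩ := hae.two_dvd
          obtain ⟨b', rfl⟩ := hbe.two_dvd
          obtain ⟨c', rfl⟩ := hce.two_dvd
          exact (ih a' b' c' (by omega) (by omega) (by omega) (by omega) (by omega) (by omega)
            (by omega) (by omega) (by omega) (by omega)).scale (by norm_num)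
        · obtain ⟨a', rfl⟩ := hae.two_dvd
          obtain ⟨b', rfl⟩ := hbe.two_dvd
          apply Q3.swap
          apply Q3.swap12
          exact lr_two_even hco (by omega) (by omega)
      · rcases Int.even_or_odd c with hce | hco
        · obtain ⟨a', rfl⟩ := hae.two_dvd
          obtain ⟨c', rfl⟩ := hce.two_dvd
          apply Q3.swap12
          exact lr_two_even hbo (by omega) (by omega)
        · exact lr_one_even hae ha hbo hco h5 h6
    · rcases Int.even_or_odd b with hbe | hbo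
      · rcases Int.even_or_odd c with hce | hco
        · obtain ⟨b', rfl⟩ := hbe.two_dvd
          obtain ⟨c', rfl⟩ := hce.two_dvd
          exact lr_two_even hao (by omega) (by omega)
        · apply Q3.swap12
          exact lr_one_even hbe hb hao hco h3 h4
      · rcases Int.even_or_odd c with hce | hco
        · apply Q3.swap
          apply Q3.swap12
          exact lr_one_even hce hc hao hbo h1 h2
        · exact ⟨1 / 2, far_mono (by norm_num) (far_odd_half hao),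
            far_mono (by norm_num) (far_odd_half hbo), far_mono (by norm_num) (far_odd_half hco)⟩

/-! ### The point `(7/20, 1/5, 1/5)` -/

theorem far_fifth {m : ℤ} (hm : ¬ (5 : ℤ) ∣ m) : far (1 / 5) ((m : ℝ) / 5) := by
  intro n
  have h1 : (1 : ℤ) ≤ |m - 5 * n| := by
    have : m - 5 * n ≠ 0 := by
      intro h
      exact hm ⟨n, by omega⟩
    exact Int.one_le_abs this
  have h2 : (1 : ℝ) ≤ |(m : ℝ) - 5 * n| := by exact_mod_cast h1
  have e : (m : ℝ) / 5 - n = ((m : ℝ) - 5 * n) / 5 := by ring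
  rw [e, abs_div]
  have : |(5:ℝ)| = 5 := by norm_num
  rw [this]
  linarith

theorem coprime_five {a : ℤ} (ha : ¬ (5 : ℤ) ∣ a) : IsCoprime a 5 := by
  have hp : Prime (5 : ℤ) := by norm_num
  exact ((Prime.coprime_iff_not_dvd hp).2 ha).symm

theorem m_none {a b c : ℤ} (ha : ¬ (5 : ℤ) ∣ a) (hb : ¬ (5 : ℤ) ∣ b) (hc : ¬ (5 : ℤ) ∣ c) :
    Q3 (7 / 20) (1 / 5) (1 / 5) a b c := by
  obtain ⟨u, v, huv⟩ := coprime_five ha
  have hp : Prime (5 : ℤ) := by norm_num
  have hu : ¬ (5 : ℤ) ∣ u := by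
    rintro ⟨w, rfl⟩
    have h : (5 : ℤ) ∣ 1 := ⟨w * a + v, by linarith⟩
    omega
  have key : ∀ x : ℤ, ¬ (5 : ℤ) ∣ x → far (1 / 5) ((x : ℝ) * (((2 * u : ℤ) : ℝ) / 5)) := by
    intro x hx
    have h1 : ¬ (5 : ℤ) ∣ x * (2 * u) := by
      intro h
      rcases hp.dvd_or_dvd h with h | h
      · exact hx h
      · rcases hp.dvd_or_dvd h with h | h
        · omega
        · exact hu h
    have := far_fifth h1
    have e : (x : ℝ) * (((2 * u : ℤ) : ℝ) / 5) = ((x * (2 * u) : ℤ) : ℝ) / 5 := by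
      push_cast; ring
    rw [e]; exact this
  refine ⟨((2 * u : ℤ) : ℝ) / 5, ?_, key b hb, key c hc⟩
  have h1 : (u : ℝ) * a + v * 5 = 1 := by exact_mod_cast huv
  have e : (a : ℝ) * (((2 * u : ℤ) : ℝ) / 5) = 2 / 5 + ((-(2 * v) : ℤ) : ℝ) := by
    push_cast
    linear_combination (2 / 5 : ℝ) * h1
  apply far_congr _ e
  apply far_of 0 <;> norm_num

theorem mod5 {b c : ℤ} (hb : ¬ (5 : ℤ) ∣ b) (hc : ¬ (5 : ℤ) ∣ c) :
    ∃ e : ℤ, c = 1 * b + 5 * e ∨ -c = 1 * b + 5 * e ∨ c = 2 * b + 5 * e ∨ -c = 2 * b + 5 * e := by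
  have h : (c - b) % 5 = 0 ∨ (-c - b) % 5 = 0 ∨ (c - 2 * b) % 5 = 0 ∨ (-c - 2 * b) % 5 = 0 := by
    have h1 : b % 5 = 1 ∨ b % 5 = 2 ∨ b % 5 = 3 ∨ b % 5 = 4 := by omega
    have h2 : c % 5 = 1 ∨ c % 5 = 2 ∨ c % 5 = 3 ∨ c % 5 = 4 := by omega
    rcases h1 with h1 | h1 | h1 | h1 <;> rcases h2 with h2 | h2 | h2 | h2 <;> omega
  rcases h with h | h | h | h
  · exact ⟨(c - b) / 5, by omega⟩
  · exact ⟨(-c - b) / 5, by omega⟩
  · exact ⟨(c - 2 * b) / 5, by omega⟩
  · exact ⟨(-c - 2 * b) / 5, by omega⟩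

theorem m_a1 {a' b e : ℤ} (ha' : a' ≠ 0) (hb : ¬ (5 : ℤ) ∣ b) :
    Q3 (7 / 20) (1 / 5) (1 / 5) (5 * a') b (1 * b + 5 * e) := by
  have h5 : ((5 : ℤ) : ℝ) ≠ 0 := by norm_num
  obtain ⟨σ, K0, hσ, hs1, hs2⟩ : ∃ (σ : ℝ) (K0 : ℤ), (σ = 1 ∨ σ = -1) ∧
      0 ≤ (e : ℝ) * (σ / (2 * a')) - K0 ∧ (e : ℝ) * (σ / (2 * a')) - K0 ≤ 1 / 2 := by
    have hr := abs_sub_round ((e : ℝ) / (2 * a'))
    rw [abs_le] at hr
    rcases le_or_gt 0 ((e : ℝ) / (2 * a') - round ((e : ℝ) / (2 * a'))) with h | h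
    · refine ⟨1, round ((e : ℝ) / (2 * a')), Or.inl rfl, ?_, ?_⟩
      · have e1 : (e : ℝ) * (1 / (2 * a')) = (e : ℝ) / (2 * a') := by ring
        rw [e1]; exact h
      · have e1 : (e : ℝ) * (1 / (2 * a')) = (e : ℝ) / (2 * a') := by ring
        rw [e1]; exact hr.2
    · refine ⟨-1, -round ((e : ℝ) / (2 * a')), Or.inr rfl, ?_, ?_⟩
      · have e1 : (e : ℝ) * (-1 / (2 * a')) = -((e : ℝ) / (2 * a')) := by ring
        rw [e1]; push_cast; linarith
      · have e1 : (e : ℝ) * (-1 / (2 * a')) = -((e : ℝ) / (2 * a')) := by ring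
        rw [e1]; push_cast; linarith
  set τ : ℝ := σ / (2 * a') with hτ
  have hfa : far (1 / 2) (a' * τ) := far_half ha' σ hσ
  obtain ⟨X, hX1, hX2, M, hM⟩ := exists_X 5 (by norm_num) (b * τ) (1 / 5)
  push_cast at hX2
  by_cases hc : X + (e * τ - K0) ≤ 4 / 5
  · obtain ⟨j, K, hj⟩ := shift (coprime_five hb) h5 τ X M hM
    refine ⟨_, far_mult (p := 5) h5 τ j (far_mono (by norm_num) hfa), ?_, far_comb h5 τ X hj ?_⟩
    · apply far_congr K hj
      apply far_of 0 <;> push_cast <;> linarith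
    · apply far_of K0 <;> push_cast <;> linarith
  · push Not at hc
    obtain ⟨j, K, hj⟩ := shift (coprime_five hb) h5 τ (X + 2 / 5) (M + 2)
      (by push_cast; push_cast at hM; linarith)
    refine ⟨_, far_mult (p := 5) h5 τ j (far_mono (by norm_num) hfa), ?_,
      far_comb h5 τ (X + 2 / 5) hj ?_⟩
    · apply far_congr K hj
      apply far_of 0 <;> push_cast <;> linarith
    · apply far_of (K0 + 1) <;> push_cast <;> linarith

theorem m_a2 {a' b e : ℤ} (ha' : a' ≠ 0) (hb : ¬ (5 : ℤ) ∣ b) :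
    Q3 (7 / 20) (1 / 5) (1 / 5) (5 * a') b (2 * b + 5 * e) := by
  have h5 : ((5 : ℤ) : ℝ) ≠ 0 := by norm_num
  set τ : ℝ := 1 / (2 * a') with hτ
  have hfa : far (1 / 2) (a' * τ) := far_half ha' 1 (Or.inl rfl)
  obtain ⟨X, hX1, hX2, M, hM⟩ := exists_X 5 (by norm_num) (b * τ) (1 / 5)
  push_cast at hX2
  set K0 : ℤ := ⌊(e : ℝ) * τ⌋ with hK0
  have hs1 : (K0 : ℝ) ≤ e * τ := Int.floor_le _
  have hs2 : (e : ℝ) * τ < K0 + 1 := Int.lt_floor_add_one _
  by_cases hc1 : 2 * X + (e * τ - K0) ≤ 4 / 5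
  · obtain ⟨j, K, hj⟩ := shift (coprime_five hb) h5 τ X M hM
    refine ⟨_, far_mult (p := 5) h5 τ j (far_mono (by norm_num) hfa), ?_, far_comb h5 τ X hj ?_⟩
    · apply far_congr K hj
      apply far_of 0 <;> push_cast <;> linarith
    · apply far_of K0 <;> push_cast <;> linarith
  · by_cases hc2 : 6 / 5 ≤ 2 * X + (e * τ - K0)
    · obtain ⟨j, K, hj⟩ := shift (coprime_five hb) h5 τ X M hM
      refine ⟨_, far_mult (p := 5) h5 τ j (far_mono (by norm_num) hfa), ?_, far_comb h5 τ X hj ?_⟩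
      · apply far_congr K hj
        apply far_of 0 <;> push_cast <;> linarith
      · apply far_of (K0 + 1) <;> push_cast <;> linarith
    · push Not at hc1 hc2
      obtain ⟨j, K, hj⟩ := shift (coprime_five hb) h5 τ (X + 1 / 5) (M + 1)
        (by push_cast; push_cast at hM; linarith)
      refine ⟨_, far_mult (p := 5) h5 τ j (far_mono (by norm_num) hfa), ?_,
        far_comb h5 τ (X + 1 / 5) hj ?_⟩
      · apply far_congr K hj
        apply far_of 0 <;> push_cast <;> linarith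
      · apply far_of (K0 + 1) <;> push_cast <;> linarith

theorem m_a {a' b c : ℤ} (ha' : a' ≠ 0) (hb : ¬ (5 : ℤ) ∣ b) (hc : ¬ (5 : ℤ) ∣ c) :
    Q3 (7 / 20) (1 / 5) (1 / 5) (5 * a') b c := by
  obtain ⟨e, h | h | h | h⟩ := mod5 hb hc
  · rw [h]; exact m_a1 ha' hb
  · apply Q3.negc; rw [h]; exact m_a1 ha' hb
  · rw [h]; exact m_a2 ha' hb
  · apply Q3.negc; rw [h]; exact m_a2 ha' hb

theorem m_ab {a' b' c : ℤ} (ha' : a' ≠ 0) (hb' : b' ≠ 0) (hc : ¬ (5 : ℤ) ∣ c) :
    Q3 (7 / 20) (1 / 5) (1 / 5) (5 * a') (5 * b') c := by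
  have h5 : ((5 : ℤ) : ℝ) ≠ 0 := by norm_num
  obtain ⟨τ, h3, h4⟩ := Q2a ha' hb'
  obtain ⟨X, hX1, hX2, M, hM⟩ := exists_X 5 (by norm_num) (c * τ) (1 / 5)
  push_cast at hX2
  obtain ⟨j, K, hj⟩ := shift (coprime_five hc) h5 τ X M hM
  refine ⟨_, far_mult (p := 5) h5 τ j h3, far_mult (p := 5) h5 τ j h4, ?_⟩
  apply far_congr K hj
  apply far_of 0 <;> push_cast <;> linarith

theorem m_bc {a b' c' : ℤ} (ha : ¬ (5 : ℤ) ∣ a) (hb' : b' ≠ 0) (hc' : c' ≠ 0) :
    Q3 (7 / 20) (1 / 5) (1 / 5) a (5 * b') (5 * c') := by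
  have h5 : ((5 : ℤ) : ℝ) ≠ 0 := by norm_num
  obtain ⟨τ, h3, h4⟩ := Q2b hb' hc'
  obtain ⟨X, hX1, hX2, M, hM⟩ := exists_X 5 (by norm_num) (a * τ) (2 / 5)
  push_cast at hX2
  obtain ⟨j, K, hj⟩ := shift (coprime_five ha) h5 τ X M hM
  refine ⟨_, ?_, far_mult (p := 5) h5 τ j (far_mono (by norm_num) h3),
    far_mult (p := 5) h5 τ j (far_mono (by norm_num) h4)⟩
  apply far_congr K hj
  apply far_of 0 <;> push_cast <;> linarith

theorem m_b1 {a b' e : ℤ} (ha : ¬ (5 : ℤ) ∣ a) (hb' : b' ≠ 0) (he : e ≠ 0) :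
    Q3 (7 / 20) (1 / 5) (1 / 5) a (5 * b') (1 * a + 5 * e) := by
  have h5 : ((5 : ℤ) : ℝ) ≠ 0 := by norm_num
  by_cases hbe : |b'| = |e|
  · have her : (e : ℝ) ≠ 0 := by exact_mod_cast he
    set τ : ℝ := 1 / (5 * e) with hτ
    have hτe : (e : ℝ) * τ = 1 / 5 := by rw [hτ]; field_simp
    have hbase : far (1 / 5) ((e : ℝ) * τ) := by
      rw [hτe]; apply far_of 0 <;> norm_num
    have h1 : far (1 / 5) ((b' : ℝ) * τ) := by
      rcases abs_eq_abs.1 hbe with h | h
      · rw [h]; exact hbase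
      · rw [h]
        push_cast
        rw [neg_mul]
        exact far_neg hbase
    obtain ⟨X, hX1, hX2, M, hM⟩ := exists_X 5 (by norm_num) (a * τ) (7 / 20)
    obtain ⟨j, K, hj⟩ := shift (coprime_five ha) h5 τ X M hM
    push_cast at hX2
    refine ⟨_, ?_, far_mult (p := 5) h5 τ j h1, far_comb h5 τ X hj ?_⟩
    · apply far_congr K hj
      apply far_of 0 <;> push_cast <;> linarith
    · rw [hτe]
      apply far_of 0 <;> push_cast <;> linarith
  · obtain ⟨τ, K0, h1, h2⟩ := two_far he hb' hbe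
    rw [abs_le] at h1
    obtain ⟨h1, h1'⟩ := h1
    obtain ⟨X, hX1, hX2, M, hM⟩ := exists_X 5 (by norm_num) (a * τ) (2 / 5)
    obtain ⟨j, K, hj⟩ := shift (coprime_five ha) h5 τ X M hM
    push_cast at hX2
    refine ⟨_, ?_, far_mult (p := 5) h5 τ j (far_mono (by norm_num) h2), far_comb h5 τ X hj ?_⟩
    · apply far_congr K hj
      apply far_of 0 <;> push_cast <;> linarith
    · apply far_of K0 <;> push_cast <;> linarith

theorem m_b2 {a b' e : ℤ} (ha : ¬ (5 : ℤ) ∣ a) (hb' : b' ≠ 0) :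
    Q3 (7 / 20) (1 / 5) (1 / 5) a (5 * b') (2 * a + 5 * e) := by
  have h5 : ((5 : ℤ) : ℝ) ≠ 0 := by norm_num
  have ha0 : a ≠ 0 := by rintro rfl; simp at ha
  obtain ⟨τ, L0, h1, h2⟩ := two_far' ha0 hb'
  rw [abs_le] at h1
  obtain ⟨h1, h1'⟩ := h1
  set X1 : ℝ := (2 + (a * τ - L0)) / 5 with hX1
  set K0 : ℤ := ⌊(e : ℝ) * τ⌋ with hK0
  have hs1 : (K0 : ℝ) ≤ e * τ := Int.floor_le _
  have hs2 : (e : ℝ) * τ < K0 + 1 := Int.lt_floor_add_one _
  obtain ⟨j, K, hj⟩ := shift (coprime_five ha) h5 τ X1 (2 - L0)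
    (by rw [hX1]; push_cast; ring)
  obtain ⟨j', K', hj'⟩ := shift (coprime_five ha) h5 τ (X1 + 1 / 5) (3 - L0)
    (by rw [hX1]; push_cast; ring)
  have f1 : far (7 / 20) ((a : ℝ) * ((τ + j) / ((5 : ℤ) : ℝ))) := by
    apply far_congr K hj
    apply far_of 0 <;> push_cast <;> linarith
  have f2 : far (7 / 20) ((a : ℝ) * ((τ + j') / ((5 : ℤ) : ℝ))) := by
    apply far_congr K' hj'
    apply far_of 0 <;> push_cast <;> linarith
  have g1 := far_mult (p := 5) h5 τ j (far_mono (by norm_num : (1/5 : ℝ) ≤ 1/4) h2)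
  have g2 := far_mult (p := 5) h5 τ j' (far_mono (by norm_num : (1/5 : ℝ) ≤ 1/4) h2)
  by_cases hc1 : 2 * X1 + (e * τ - K0) ≤ 4 / 5
  · refine ⟨_, f1, g1, far_comb h5 τ X1 hj ?_⟩
    apply far_of K0 <;> push_cast <;> linarith
  · by_cases hc2 : 2 * X1 + (e * τ - K0) < 6 / 5
    · push Not at hc1
      refine ⟨_, f2, g2, far_comb h5 τ (X1 + 1 / 5) hj' ?_⟩
      apply far_of (K0 + 1) <;> push_cast <;> linarith
    · by_cases hc3 : 2 * X1 + (e * τ - K0) ≤ 9 / 5
      · push Not at hc2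
        refine ⟨_, f1, g1, far_comb h5 τ X1 hj ?_⟩
        apply far_of (K0 + 1) <;> push_cast <;> linarith
      · push Not at hc3
        refine ⟨_, f2, g2, far_comb h5 τ (X1 + 1 / 5) hj' ?_⟩
        apply far_of (K0 + 2) <;> push_cast <;> linarith

theorem m_b {a b' c : ℤ} (ha : ¬ (5 : ℤ) ∣ a) (hb' : b' ≠ 0) (hc : ¬ (5 : ℤ) ∣ c)
    (h1 : a ≠ c) (h2 : a ≠ -c) : Q3 (7 / 20) (1 / 5) (1 / 5) a (5 * b') c := by
  obtain ⟨e, h | h | h | h⟩ := mod5 ha hc
  · rw [h]; exact m_b1 ha hb' (by omega)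
  · apply Q3.negc; rw [h]; exact m_b1 ha hb' (by omega)
  · rw [h]; exact m_b2 ha hb'
  · apply Q3.negc; rw [h]; exact m_b2 ha hb'

theorem m1 : ∀ n : ℕ, ∀ a b c : ℤ, a.natAbs + b.natAbs + c.natAbs ≤ n → a ≠ 0 → b ≠ 0 → c ≠ 0 →
    a ≠ b → a ≠ -b → a ≠ c → a ≠ -c → Q3 (7 / 20) (1 / 5) (1 / 5) a b c := by
  intro n
  induction n with
  | zero =>
    intro a b c h ha
    exact absurd (Int.natAbs_eq_zero.1 (by omega)) ha
  | succ n ih =>
    intro a b c h ha hb hc h1 h2 h3 h4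
    by_cases hae : (5 : ℤ) ∣ a
    · by_cases hbe : (5 : ℤ) ∣ b
      · by_cases hce : (5 : ℤ) ∣ c
        · obtain ⟨a', rfl⟩ := hae
          obtain ⟨b', rfl⟩ := hbe
          obtain ⟨c', rfl⟩ := hce
          exact (ih a' b' c' (by omega) (by omega) (by omega) (by omega) (by omega) (by omega)
            (by omega) (by omega)).scale (by norm_num)
        · obtain ⟨a', rfl⟩ := hae
          obtain ⟨b', rfl⟩ := hbe
          exact m_ab (by omega) (by omega) hce
      · by_cases hce : (5 : ℤ) ∣ c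
        · obtain ⟨a', rfl⟩ := hae
          obtain ⟨c', rfl⟩ := hce
          apply Q3.swap
          exact m_ab (by omega) (by omega) hbe
        · obtain ⟨a', rfl⟩ := hae
          exact m_a (by omega) hbe hce
    · by_cases hbe : (5 : ℤ) ∣ b
      · by_cases hce : (5 : ℤ) ∣ c
        · obtain ⟨b', rfl⟩ := hbe
          obtain ⟨c', rfl⟩ := hce
          exact m_bc hae (by omega) (by omega)
        · obtain ⟨b', rfl⟩ := hbe
          exact m_b hae (by omega) hce h3 h4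
      · by_cases hce : (5 : ℤ) ∣ c
        · obtain ⟨c', rfl⟩ := hce
          apply Q3.swap
          exact m_b hae (by omega) hbe h1 h2
        · exact m_none hae hbe hce

end Pool.Agent.R332.Mixed
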