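import Mathlib

/-!
# Two-dimensional sequences with equidistributed digits have low discrepancy
-/

open Finset

namespace Pool.Agent.R332.Net

/-- `A k n`, `B j n` are the first digits of `x n` (base `q`) and `y n` (base `q ^ e`); every box
of not too small area contains the right number of points of every block of length `q ^ m` -/
structure Data (q e c : ℕ) (A B : ℕ → ℕ → ℕ) (x y : ℕ → ℝ) : Prop where
  hq : 2 ≤ q
  he : 1 ≤ e
  hc : 1 ≤ c
  hA : ∀ k n, (A k n : ℝ) / (q : ℝ) ^ k ≤ x n ∧ x n ≤ ((A k n : ℝ) + 1) / (q : ℝ) ^ k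
  hB : ∀ j n, (B j n : ℝ) / (q : ℝ) ^ (e * j) ≤ y n ∧ y n ≤ ((B j n : ℝ) + 1) / (q : ℝ) ^ (e * j)
  hBlt : ∀ j n, B j n < q ^ (e * j)
  hBrec : ∀ j n, B (j + 1) n / q ^ e = B j n
  hbox : ∀ m u k j, k + e * j + c ≤ m + 1 → ∀ a < q ^ k, ∀ b < q ^ (e * j),
    #{n ∈ Ico (u * q ^ m) ((u + 1) * q ^ m) | A k n = a ∧ B j n = b} = q ^ (m - e * j - k)

variable {q e c : ℕ} {A B : ℕ → ℕ → ℕ} {x y : ℕ → ℝ}

/-- cutting a real number -/
theorem cut (γ : ℝ) (h0 : 0 < γ) (h1 : γ ≤ 1) (D : ℕ) (hD : 0 < D) :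
    ∃ a : ℕ, a < D ∧ (a : ℝ) < γ * D ∧ γ * D ≤ (a : ℝ) + 1 := by
  have hpos : 0 < γ * D := by positivity
  have h2 : 0 < ⌈γ * D⌉₊ := Nat.ceil_pos.2 hpos
  refine ⟨⌈γ * D⌉₊ - 1, ?_, ?_, ?_⟩
  · have : ⌈γ * D⌉₊ ≤ D := Nat.ceil_le.2 (by
      have : (0 : ℝ) < D := by exact_mod_cast hD
      nlinarith)
    omega
  · have := Nat.ceil_lt_add_one hpos.le
    have h3 : ((⌈γ * D⌉₊ - 1 : ℕ) : ℝ) = (⌈γ * D⌉₊ : ℝ) - 1 := by
      rw [Nat.cast_sub h2]; simp
    rw [h3]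
    linarith
  · have := Nat.le_ceil (γ * D)
    have h3 : ((⌈γ * D⌉₊ - 1 : ℕ) : ℝ) = (⌈γ * D⌉₊ : ℝ) - 1 := by
      rw [Nat.cast_sub h2]; simp
    rw [h3]
    linarith

theorem count_lt (h : Data q e c A B x y) (m u k j : ℕ) (hk : k + e * j + c ≤ m + 1) (b : ℕ)
    (hb : b < q ^ (e * j)) (a : ℕ) (ha : a ≤ q ^ k) :
    #{n ∈ Ico (u * q ^ m) ((u + 1) * q ^ m) | A k n < a ∧ B j n = b} =
      a * q ^ (m - e * j - k) := by
  induction a with
  | zero => simp
  | succ a ih =>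
    have h1 : ({n ∈ Ico (u * q ^ m) ((u + 1) * q ^ m) | A k n < a + 1 ∧ B j n = b} : Finset ℕ) =
        {n ∈ Ico (u * q ^ m) ((u + 1) * q ^ m) | A k n < a ∧ B j n = b} ∪
        {n ∈ Ico (u * q ^ m) ((u + 1) * q ^ m) | A k n = a ∧ B j n = b} := by
      ext n
      simp only [mem_filter, mem_union]
      constructor
      · rintro ⟨h1, h2, h3⟩
        rcases Nat.lt_succ_iff_lt_or_eq.1 h2 with h4 | h4
        · exact Or.inl ⟨h1, h4, h3⟩
        · exact Or.inr ⟨h1, h4, h3⟩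
      · rintro (⟨h1, h2, h3⟩ | ⟨h1, h2, h3⟩)
        · exact ⟨h1, by omega, h3⟩
        · exact ⟨h1, by omega, h3⟩
    rw [h1, card_union_of_disjoint, ih (by omega), h.hbox m u k j hk a (by omega) b hb]
    · ring
    · rw [disjoint_left]
      intro n h2 h3
      simp only [mem_filter] at h2 h3
      omega

/-- the number of points in a vertical strip given by one class -/
theorem class_count (h : Data q e c A B x y) (m u j : ℕ) (hj : e * j + c ≤ m + 1) (b : ℕ)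
    (hb : b < q ^ (e * j)) (γ : ℝ) (h0 : 0 ≤ γ) (h1 : γ ≤ 1) :
    |(#{n ∈ Ico (u * q ^ m) ((u + 1) * q ^ m) | x n < γ ∧ B j n = b} : ℝ) -
      (q : ℝ) ^ (m - e * j) * γ| ≤ (q : ℝ) ^ (c - 1) := by
  have hq := h.hq
  have hc := h.hc
  have hqr : (0 : ℝ) < q := by exact_mod_cast (by omega : 0 < q)
  rcases h0.eq_or_lt with h0 | h0
  · have : ({n ∈ Ico (u * q ^ m) ((u + 1) * q ^ m) | x n < γ ∧ B j n = b} : Finset ℕ) = ∅ := by
      ext n
      simp only [mem_filter, notMem_empty, iff_false]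
      rintro ⟨-, h2, -⟩
      have h3 := (h.hA 0 n).1
      have h4 : (0 : ℝ) ≤ (A 0 n : ℝ) / (q : ℝ) ^ 0 := by positivity
      linarith
    rw [this, ← h0]
    simp
  · obtain ⟨k, hk⟩ : ∃ k, k + e * j + c = m + 1 := ⟨m + 1 - c - e * j, by omega⟩
    obtain ⟨a, ha1, ha2, ha3⟩ := cut γ h0 h1 (q ^ k) (by positivity)
    have hexp : m - e * j - k = c - 1 := by omega
    have hlow := count_lt h m u k j hk.le b hb a ha1.le
    have hup := count_lt h m u k j hk.le b hb (a + 1) ha1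
    rw [hexp] at hlow hup
    have hqk : (0 : ℝ) < (q : ℝ) ^ k := by positivity
    have s1 : #{n ∈ Ico (u * q ^ m) ((u + 1) * q ^ m) | A k n < a ∧ B j n = b} ≤
        #{n ∈ Ico (u * q ^ m) ((u + 1) * q ^ m) | x n < γ ∧ B j n = b} := by
      apply card_le_card
      intro n hn
      simp only [mem_filter] at hn ⊢
      refine ⟨hn.1, ?_, hn.2.2⟩
      refine (h.hA k n).2.trans_lt ?_
      rw [div_lt_iff₀ hqk]
      have : ((A k n : ℝ) + 1) ≤ a := by exact_mod_cast hn.2.1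
      push_cast at ha2
      linarith
    have s2 : #{n ∈ Ico (u * q ^ m) ((u + 1) * q ^ m) | x n < γ ∧ B j n = b} ≤
        #{n ∈ Ico (u * q ^ m) ((u + 1) * q ^ m) | A k n < a + 1 ∧ B j n = b} := by
      apply card_le_card
      intro n hn
      simp only [mem_filter] at hn ⊢
      refine ⟨hn.1, ?_, hn.2.2⟩
      have h2 := (h.hA k n).1.trans_lt hn.2.1
      rw [div_lt_iff₀ hqk] at h2
      push_cast at ha3
      have h3 : (A k n : ℝ) < ((a + 1 : ℕ) : ℝ) := by push_cast; linarith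
      exact_mod_cast h3
    rw [hlow] at s1
    rw [hup] at s2
    have s1' : (a : ℝ) * (q : ℝ) ^ (c - 1) ≤
        (#{n ∈ Ico (u * q ^ m) ((u + 1) * q ^ m) | x n < γ ∧ B j n = b} : ℝ) := by
      exact_mod_cast s1
    have s2' : (#{n ∈ Ico (u * q ^ m) ((u + 1) * q ^ m) | x n < γ ∧ B j n = b} : ℝ) ≤
        ((a : ℝ) + 1) * (q : ℝ) ^ (c - 1) := by
      exact_mod_cast s2
    have hsplit : (q : ℝ) ^ (m - e * j) = (q : ℝ) ^ k * (q : ℝ) ^ (c - 1) := by
      rw [← pow_add]; congr 1; omega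
    have hqc : (0 : ℝ) < (q : ℝ) ^ (c - 1) := by positivity
    push_cast at ha2 ha3
    have t1 : (a : ℝ) * (q : ℝ) ^ (c - 1) ≤ (q : ℝ) ^ (m - e * j) * γ := by
      rw [hsplit]
      nlinarith
    have t2 : (q : ℝ) ^ (m - e * j) * γ ≤ ((a : ℝ) + 1) * (q : ℝ) ^ (c - 1) := by
      rw [hsplit]
      nlinarith
    rw [abs_le]
    constructor <;> linarith

theorem sum_class (h : Data q e c A B x y) (m u j : ℕ) (hj : e * j + c ≤ m + 1) (b r : ℕ)
    (hb : b + r ≤ q ^ (e * j)) (γ : ℝ) (h0 : 0 ≤ γ) (h1 : γ ≤ 1) :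
    |(#{n ∈ Ico (u * q ^ m) ((u + 1) * q ^ m) | x n < γ ∧ (b ≤ B j n ∧ B j n < b + r)} : ℝ) -
      (q : ℝ) ^ (m - e * j) * r * γ| ≤ r * (q : ℝ) ^ (c - 1) := by
  induction r with
  | zero =>
    have : ({n ∈ Ico (u * q ^ m) ((u + 1) * q ^ m) | x n < γ ∧ (b ≤ B j n ∧ B j n < b + 0)} :
        Finset ℕ) = ∅ := by
      ext n
      simp only [mem_filter, notMem_empty, iff_false]
      rintro ⟨-, -, h2, h3⟩
      omega
    rw [this]
    simp
  | succ r ih =>
    have h2 : ({n ∈ Ico (u * q ^ m) ((u + 1) * q ^ m) |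
          x n < γ ∧ (b ≤ B j n ∧ B j n < b + (r + 1))} : Finset ℕ) =
        {n ∈ Ico (u * q ^ m) ((u + 1) * q ^ m) | x n < γ ∧ (b ≤ B j n ∧ B j n < b + r)} ∪
        {n ∈ Ico (u * q ^ m) ((u + 1) * q ^ m) | x n < γ ∧ B j n = b + r} := by
      ext n
      simp only [mem_filter, mem_union]
      constructor
      · rintro ⟨h1, h2, h3, h4⟩
        rcases Nat.lt_succ_iff_lt_or_eq.1 (by omega : B j n < (b + r) + 1) with h5 | h5
        · exact Or.inl ⟨h1, h2, h3, h5⟩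
        · exact Or.inr ⟨h1, h2, h5⟩
      · rintro (⟨h1, h2, h3, h4⟩ | ⟨h1, h2, h3⟩)
        · exact ⟨h1, h2, h3, by omega⟩
        · exact ⟨h1, h2, by omega, by omega⟩
    rw [h2, card_union_of_disjoint]
    · have h3 := ih (by omega)
      have h4 := class_count h m u j hj (b + r) (by omega) γ h0 h1
      rw [abs_le] at h3 h4 ⊢
      push_cast
      constructor <;> nlinarith [h3.1, h3.2, h4.1, h4.2]
    · rw [disjoint_left]
      intro n h2 h3
      simp only [mem_filter] at h2 h3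
      omega

theorem strip_count (h : Data q e c A B x y) (m u : ℕ) (γ : ℝ) (h0 : 0 ≤ γ) (h1 : γ ≤ 1) :
    ∀ j : ℕ, e * j + c ≤ m + 1 → ∀ b ≤ q ^ (e * j),
    |(#{n ∈ Ico (u * q ^ m) ((u + 1) * q ^ m) | x n < γ ∧ B j n < b} : ℝ) -
      (q : ℝ) ^ (m - e * j) * b * γ| ≤ ((j : ℝ) + 1) * (q : ℝ) ^ e * (q : ℝ) ^ (c - 1) := by
  have hq := h.hq
  have hqr : (0 : ℝ) < q := by exact_mod_cast (by omega : 0 < q)
  have hq1 : (1 : ℝ) ≤ q := by exact_mod_cast (by omega : 1 ≤ q)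
  have hqe : (1 : ℝ) ≤ (q : ℝ) ^ e := one_le_pow₀ hq1
  have hqc : (0 : ℝ) < (q : ℝ) ^ (c - 1) := by positivity
  intro j
  induction j with
  | zero =>
    intro hj b hb
    have h2 := sum_class h m u 0 hj 0 b (by omega) γ h0 h1
    simp only [zero_add, Nat.zero_le, true_and] at h2
    refine h2.trans ?_
    rw [Nat.mul_zero, pow_zero] at hb
    have hb' : (b : ℝ) ≤ 1 := by exact_mod_cast hb
    push_cast
    nlinarith
  | succ j ih =>
    intro hj b hb
    have hmul : e * (j + 1) = e * j + e := by ring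
    set Q := q ^ e with hQ
    have hQ0 : 0 < Q := by positivity
    have hb' : b / Q ≤ q ^ (e * j) := by
      rw [hmul, pow_add, ← hQ] at hb
      exact Nat.div_le_of_le_mul (by rwa [Nat.mul_comm])
    have h2 := ih (by omega) (b / Q) hb'
    have hdm : Q * (b / Q) + b % Q = b := Nat.div_add_mod b Q
    have h3 := sum_class h m u (j + 1) hj (Q * (b / Q)) (b % Q) (by omega) γ h0 h1
    have hset : ({n ∈ Ico (u * q ^ m) ((u + 1) * q ^ m) | x n < γ ∧ B (j + 1) n < b} :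
          Finset ℕ) =
        {n ∈ Ico (u * q ^ m) ((u + 1) * q ^ m) | x n < γ ∧ B j n < b / Q} ∪
        {n ∈ Ico (u * q ^ m) ((u + 1) * q ^ m) | x n < γ ∧ (Q * (b / Q) ≤ B (j + 1) n ∧
          B (j + 1) n < Q * (b / Q) + b % Q)} := by
      ext n
      simp only [mem_filter, mem_union]
      rw [hdm]
      have hr := h.hBrec j n
      rw [← hQ] at hr
      have key : B j n < b / Q ↔ B (j + 1) n < Q * (b / Q) := by
        rw [← hr, Nat.div_lt_iff_lt_mul hQ0, Nat.mul_comm]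
      rw [key]
      have hle : Q * (b / Q) ≤ b := Nat.mul_div_le b Q
      constructor
      · rintro ⟨h1, h2, h3⟩
        rcases lt_or_ge (B (j + 1) n) (Q * (b / Q)) with h4 | h4
        · exact Or.inl ⟨h1, h2, h4⟩
        · exact Or.inr ⟨h1, h2, h4, h3⟩
      · rintro (⟨h1, h2, h3⟩ | ⟨h1, h2, h3, h4⟩)
        · exact ⟨h1, h2, by omega⟩
        · exact ⟨h1, h2, h4⟩
    rw [hset, card_union_of_disjoint]
    · have hmod : ((b % Q : ℕ) : ℝ) ≤ (Q : ℝ) := by exact_mod_cast (Nat.mod_lt b hQ0).le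
      have hQr : (Q : ℝ) = (q : ℝ) ^ e := by rw [hQ]; push_cast; rfl
      have hp : (q : ℝ) ^ (m - e * j) = (q : ℝ) ^ (m - e * (j + 1)) * Q := by
        have hc := h.hc
        rw [hQr, ← pow_add]; congr 1; omega
      rw [hp] at h2
      have hbr : (b : ℝ) = Q * ((b / Q : ℕ) : ℝ) + ((b % Q : ℕ) : ℝ) := by
        exact_mod_cast hdm.symm
      rw [← hQr] at h2 ⊢
      have e1 : (q : ℝ) ^ (m - e * (j + 1)) * b * γ =
          (q : ℝ) ^ (m - e * (j + 1)) * Q * ((b / Q : ℕ) : ℝ) * γ +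
          (q : ℝ) ^ (m - e * (j + 1)) * ((b % Q : ℕ) : ℝ) * γ := by
        rw [hbr]; ring
      rw [e1]
      have h5 : ((b % Q : ℕ) : ℝ) * (q : ℝ) ^ (c - 1) ≤ Q * (q : ℝ) ^ (c - 1) :=
        mul_le_mul_of_nonneg_right hmod hqc.le
      rw [abs_le] at h2 h3 ⊢
      push_cast at h2 h3 h5 ⊢
      constructor <;> nlinarith [h2.1, h2.2, h3.1, h3.2, h5]
    · rw [disjoint_left]
      intro n h4 h5
      simp only [mem_filter] at h4 h5
      have hr := h.hBrec j n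
      rw [← hQ] at hr
      have key : B j n < b / Q ↔ B (j + 1) n < Q * (b / Q) := by
        rw [← hr, Nat.div_lt_iff_lt_mul hQ0, Nat.mul_comm]
      rw [key] at h4
      omega

/-- blocks -/
theorem block (h : Data q e c A B x y) (m u : ℕ) (γ l : ℝ) (h0 : 0 ≤ γ) (h1 : γ ≤ 1)
    (hl0 : 0 ≤ l) (hl1 : l ≤ 1) :
    |(#{n ∈ Ico (u * q ^ m) ((u + 1) * q ^ m) | x n < γ ∧ y n < l} : ℝ) -
      (q : ℝ) ^ m * (γ * l)| ≤ 2 * (q : ℝ) ^ (e + c) * ((m : ℝ) + 1) := by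
  have hq := h.hq
  have he := h.he
  have hc := h.hc
  have hqr : (0 : ℝ) < q := by exact_mod_cast (by omega : 0 < q)
  have hq1 : (1 : ℝ) ≤ q := by exact_mod_cast (by omega : 1 ≤ q)
  have hm0 : (0 : ℝ) ≤ m := by positivity
  have hgl : 0 ≤ γ * l := mul_nonneg h0 hl0
  have hgl1 : γ * l ≤ 1 := by nlinarith
  have hqec : (0 : ℝ) < (q : ℝ) ^ (e + c) := by positivity
  rcases lt_or_ge (m + 1) c with hmc | hmc
  · have h2 : #{n ∈ Ico (u * q ^ m) ((u + 1) * q ^ m) | x n < γ ∧ y n < l} ≤ q ^ m := by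
      refine (card_filter_le _ _).trans ?_
      rw [Nat.card_Ico]
      apply le_of_eq
      rw [Nat.add_mul, one_mul, Nat.add_sub_cancel_left]
    have h3 : (#{n ∈ Ico (u * q ^ m) ((u + 1) * q ^ m) | x n < γ ∧ y n < l} : ℝ) ≤
        (q : ℝ) ^ m := by exact_mod_cast h2
    have h4 : (q : ℝ) ^ m ≤ (q : ℝ) ^ (e + c) := pow_le_pow_right₀ hq1 (by omega)
    have h5 : (0 : ℝ) ≤ (#{n ∈ Ico (u * q ^ m) ((u + 1) * q ^ m) | x n < γ ∧ y n < l} : ℝ) := by
      positivity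
    have h6 : (0 : ℝ) < (q : ℝ) ^ m := by positivity
    rw [abs_le]
    constructor <;> nlinarith
  · rcases hl0.eq_or_lt with hl0 | hl0
    · have : ({n ∈ Ico (u * q ^ m) ((u + 1) * q ^ m) | x n < γ ∧ y n < l} : Finset ℕ) = ∅ := by
        ext n
        simp only [mem_filter, notMem_empty, iff_false]
        rintro ⟨-, -, h2⟩
        have h3 := (h.hB 0 n).1
        have h4 : (0 : ℝ) ≤ (B 0 n : ℝ) / (q : ℝ) ^ (e * 0) := by positivity
        linarith
      rw [this, ← hl0]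
      simp
      positivity
    · set J := (m + 1 - c) / e with hJ
      have hJ1 : e * J ≤ m + 1 - c := Nat.mul_div_le _ _
      have hJ2 : m + 1 - c < e * J + e := by
        have := Nat.lt_mul_div_succ (m + 1 - c) (by omega : 0 < e)
        rw [← hJ] at this
        rw [Nat.mul_add, mul_one] at this
        exact this
      have hJm : J ≤ m := by
        have : J ≤ e * J := Nat.le_mul_of_pos_left J (by omega)
        omega
      obtain ⟨b, hb1, hb2, hb3⟩ := cut l hl0 hl1 (q ^ (e * J)) (by positivity)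
      have hlow := strip_count h m u γ h0 h1 J (by omega) b hb1.le
      have hup := strip_count h m u γ h0 h1 J (by omega) (b + 1) hb1
      have hqJ : (0 : ℝ) < (q : ℝ) ^ (e * J) := by positivity
      have s1 : #{n ∈ Ico (u * q ^ m) ((u + 1) * q ^ m) | x n < γ ∧ B J n < b} ≤
          #{n ∈ Ico (u * q ^ m) ((u + 1) * q ^ m) | x n < γ ∧ y n < l} := by
        apply card_le_card
        intro n hn
        simp only [mem_filter] at hn ⊢
        refine ⟨hn.1, hn.2.1, ?_⟩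
        refine (h.hB J n).2.trans_lt ?_
        rw [div_lt_iff₀ hqJ]
        have : ((B J n : ℝ) + 1) ≤ b := by exact_mod_cast hn.2.2
        push_cast at hb2
        linarith
      have s2 : #{n ∈ Ico (u * q ^ m) ((u + 1) * q ^ m) | x n < γ ∧ y n < l} ≤
          #{n ∈ Ico (u * q ^ m) ((u + 1) * q ^ m) | x n < γ ∧ B J n < b + 1} := by
        apply card_le_card
        intro n hn
        simp only [mem_filter] at hn ⊢
        refine ⟨hn.1, hn.2.1, ?_⟩
        have h2 := (h.hB J n).1.trans_lt hn.2.2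
        rw [div_lt_iff₀ hqJ] at h2
        push_cast at hb3
        have h3 : (B J n : ℝ) < ((b + 1 : ℕ) : ℝ) := by push_cast; linarith
        exact_mod_cast h3
      have s1' : (#{n ∈ Ico (u * q ^ m) ((u + 1) * q ^ m) | x n < γ ∧ B J n < b} : ℝ) ≤
          #{n ∈ Ico (u * q ^ m) ((u + 1) * q ^ m) | x n < γ ∧ y n < l} := by exact_mod_cast s1
      have s2' : (#{n ∈ Ico (u * q ^ m) ((u + 1) * q ^ m) | x n < γ ∧ y n < l} : ℝ) ≤
          #{n ∈ Ico (u * q ^ m) ((u + 1) * q ^ m) | x n < γ ∧ B J n < b + 1} := by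
        exact_mod_cast s2
      have hsplit : (q : ℝ) ^ m = (q : ℝ) ^ (m - e * J) * (q : ℝ) ^ (e * J) := by
        rw [← pow_add]; congr 1; omega
      push_cast at hb2 hb3 hup
      set W := (q : ℝ) ^ (m - e * J) with hW
      have hW0 : 0 < W := by positivity
      have hW1 : W ≤ (q : ℝ) ^ (e + c) := pow_le_pow_right₀ hq1 (by omega)
      have t1 : W * b * γ ≤ (q : ℝ) ^ m * (γ * l) := by
        rw [hsplit]
        have : (b : ℝ) ≤ l * (q : ℝ) ^ (e * J) := hb2.le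
        have h3 : W * γ * b ≤ W * γ * (l * (q : ℝ) ^ (e * J)) :=
          mul_le_mul_of_nonneg_left this (by positivity)
        linarith
      have t2 : (q : ℝ) ^ m * (γ * l) ≤ W * (b + 1) * γ := by
        rw [hsplit]
        have h3 : W * γ * (l * (q : ℝ) ^ (e * J)) ≤ W * γ * (b + 1) :=
          mul_le_mul_of_nonneg_left hb3 (by positivity)
        linarith
      have hWγ : W * γ ≤ (q : ℝ) ^ (e + c) := by nlinarith
      have hJr : (J : ℝ) ≤ m := by exact_mod_cast hJm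
      have hec : (q : ℝ) ^ e * (q : ℝ) ^ (c - 1) ≤ (q : ℝ) ^ (e + c) := by
        rw [← pow_add]
        exact pow_le_pow_right₀ hq1 (by omega)
      have hec0 : 0 < (q : ℝ) ^ e * (q : ℝ) ^ (c - 1) := by positivity
      have hbd : ((J : ℝ) + 1) * (q : ℝ) ^ e * (q : ℝ) ^ (c - 1) ≤
          ((m : ℝ) + 1) * (q : ℝ) ^ (e + c) := by
        rw [mul_assoc]
        have hJ0 : (0 : ℝ) ≤ J := by positivity
        exact mul_le_mul (by linarith) hec hec0.le (by positivity)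
      rw [abs_le] at hlow hup ⊢
      constructor <;> nlinarith [hlow.1, hlow.2, hup.1, hup.2]

/-- the number of points of an interval of indices in a box -/
noncomputable def cnt (x y : ℕ → ℝ) (γ l : ℝ) (a b : ℕ) : ℕ :=
  #{n ∈ Ico a b | x n < γ ∧ y n < l}

theorem cnt_add (x y : ℕ → ℝ) (γ l : ℝ) {a b d : ℕ} (h1 : a ≤ b) (h2 : b ≤ d) :
    cnt x y γ l a d = cnt x y γ l a b + cnt x y γ l b d := by
  unfold cnt
  rw [← card_union_of_disjoint]
  · congr 1
    ext n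
    simp only [mem_filter, mem_union, mem_Ico]
    constructor
    · rintro ⟨⟨h3, h4⟩, h5⟩
      rcases lt_or_ge n b with h6 | h6
      · exact Or.inl ⟨⟨h3, h6⟩, h5⟩
      · exact Or.inr ⟨⟨h6, h4⟩, h5⟩
    · rintro (⟨⟨h3, h4⟩, h5⟩ | ⟨⟨h3, h4⟩, h5⟩)
      · exact ⟨⟨h3, by omega⟩, h5⟩
      · exact ⟨⟨by omega, h4⟩, h5⟩
  · rw [disjoint_left]
    intro n h3 h4
    simp only [mem_filter, mem_Ico] at h3 h4
    omega

theorem blocks (h : Data q e c A B x y) (m u : ℕ) (γ l : ℝ) (h0 : 0 ≤ γ) (h1 : γ ≤ 1)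
    (hl0 : 0 ≤ l) (hl1 : l ≤ 1) (d : ℕ) :
    |(cnt x y γ l (u * q ^ m) ((u + d) * q ^ m) : ℝ) - (d : ℝ) * (q : ℝ) ^ m * (γ * l)| ≤
      d * (2 * (q : ℝ) ^ (e + c) * ((m : ℝ) + 1)) := by
  induction d with
  | zero => simp [cnt]
  | succ d ih =>
    rw [cnt_add x y γ l (a := u * q ^ m) (b := (u + d) * q ^ m) (d := (u + (d + 1)) * q ^ m)
      (Nat.mul_le_mul_right _ (by omega)) (Nat.mul_le_mul_right _ (by omega))]
    have h2 := block h m (u + d) γ l h0 h1 hl0 hl1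
    have h3 : (cnt x y γ l ((u + d) * q ^ m) ((u + (d + 1)) * q ^ m) : ℝ) =
        (#{n ∈ Ico ((u + d) * q ^ m) ((u + d + 1) * q ^ m) | x n < γ ∧ y n < l} : ℝ) := rfl
    rw [← h3] at h2
    rw [abs_le] at ih h2 ⊢
    push_cast
    constructor <;> nlinarith [ih.1, ih.2, h2.1, h2.2]

theorem segment (h : Data q e c A B x y) (γ l : ℝ) (h0 : 0 ≤ γ) (h1 : γ ≤ 1)
    (hl0 : 0 ≤ l) (hl1 : l ≤ 1) (M : ℕ) : ∀ u N : ℕ, N ≤ q ^ M →
    |(cnt x y γ l (u * q ^ M) (u * q ^ M + N) : ℝ) - (N : ℝ) * (γ * l)| ≤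
      2 * (q : ℝ) ^ (e + c) * (q * (M : ℝ) ^ 2 + 1) := by
  have hq := h.hq
  have hqr : (0 : ℝ) < q := by exact_mod_cast (by omega : 0 < q)
  have hq1 : (1 : ℝ) ≤ q := by exact_mod_cast (by omega : 1 ≤ q)
  have hgl : 0 ≤ γ * l := mul_nonneg h0 hl0
  have hgl1 : γ * l ≤ 1 := by nlinarith
  have hqec : (1 : ℝ) ≤ (q : ℝ) ^ (e + c) := one_le_pow₀ hq1
  induction M with
  | zero =>
    intro u N hN
    rw [pow_zero] at hN
    have h2 : cnt x y γ l (u * q ^ 0) (u * q ^ 0 + N) ≤ 1 := by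
      unfold cnt
      refine (card_filter_le _ _).trans ?_
      rw [Nat.card_Ico]
      omega
    have h3 : (cnt x y γ l (u * q ^ 0) (u * q ^ 0 + N) : ℝ) ≤ 1 := by exact_mod_cast h2
    have h4 : (0 : ℝ) ≤ (cnt x y γ l (u * q ^ 0) (u * q ^ 0 + N) : ℝ) := by positivity
    have h5 : (N : ℝ) ≤ 1 := by exact_mod_cast hN
    have h6 : (0 : ℝ) ≤ N := by positivity
    have h7 : (N : ℝ) * (γ * l) ≤ 1 := by nlinarith
    have h8 : 0 ≤ (N : ℝ) * (γ * l) := by positivity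
    rw [abs_le]
    push_cast
    constructor <;> nlinarith
  | succ M ih =>
    intro u N hN
    set d := N / q ^ M with hd
    set N' := N % q ^ M with hN'
    have hqM : 0 < q ^ M := by positivity
    have hdN : q ^ M * d + N' = N := Nat.div_add_mod N (q ^ M)
    have hN'lt : N' < q ^ M := Nat.mod_lt _ hqM
    have hdq : d ≤ q := by
      rw [pow_succ] at hN
      exact Nat.div_le_of_le_mul hN
    have e1 : u * q ^ (M + 1) = (u * q) * q ^ M := by ring
    have e2 : u * q ^ (M + 1) + N = (u * q + d) * q ^ M + N' := by rw [← hdN]; ring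
    have e3 : (u * q) * q ^ M ≤ (u * q + d) * q ^ M :=
      Nat.mul_le_mul_right _ (Nat.le_add_right _ _)
    rw [e2, e1, cnt_add x y γ l e3 (Nat.le_add_right _ N')]
    have h2 := blocks h M (u * q) γ l h0 h1 hl0 hl1 d
    have h3 := ih (u * q + d) N' hN'lt.le
    have hdr : (d : ℝ) ≤ q := by exact_mod_cast hdq
    have hNr : (N : ℝ) = (q : ℝ) ^ M * d + N' := by exact_mod_cast hdN.symm
    have hpos : 0 ≤ 2 * (q : ℝ) ^ (e + c) * ((M : ℝ) + 1) := by positivity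
    have h4 : (d : ℝ) * (2 * (q : ℝ) ^ (e + c) * ((M : ℝ) + 1)) ≤
        q * (2 * (q : ℝ) ^ (e + c) * ((M : ℝ) + 1)) := mul_le_mul_of_nonneg_right hdr hpos
    have h5 : (q : ℝ) * (2 * (q : ℝ) ^ (e + c) * ((M : ℝ) + 1)) +
        2 * (q : ℝ) ^ (e + c) * (q * (M : ℝ) ^ 2 + 1) ≤
        2 * (q : ℝ) ^ (e + c) * (q * ((M + 1 : ℕ) : ℝ) ^ 2 + 1) := by
      push_cast
      have h6 : 0 ≤ (q : ℝ) ^ (e + c) * (q : ℝ) * M := by positivity
      nlinarith
    rw [hNr]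
    rw [abs_le] at h2 h3 ⊢
    push_cast at h5 ⊢
    constructor <;> nlinarith [h2.1, h2.2, h3.1, h3.2]

/-- the discrepancy bound -/
theorem main (h : Data q e c A B x y) : ∃ C : ℝ, ∀ N : ℕ, 2 ≤ N → ∀ γ l : ℝ, 0 ≤ γ → γ ≤ 1 →
    0 ≤ l → l ≤ 1 →
    |(#{n ∈ range N | x n < γ ∧ y n < l} : ℝ) - (N : ℝ) * (γ * l)| ≤ C * Real.log N ^ 2 := by
  have hq := h.hq
  have hqr : (0 : ℝ) < q := by exact_mod_cast (by omega : 0 < q)
  have hq1 : (1 : ℝ) ≤ q := by exact_mod_cast (by omega : 1 ≤ q)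
  refine ⟨2 * (q : ℝ) ^ (e + c) * (q * (2 / Real.log 2) ^ 2 + 1 / Real.log 2 ^ 2), ?_⟩
  intro N hN γ l h0 h1 hl0 hl1
  set M := Nat.log q N + 1 with hM
  have hNM : N ≤ q ^ M := (Nat.lt_pow_succ_log_self (by omega) N).le
  have h2 := segment h γ l h0 h1 hl0 hl1 M 0 N hNM
  have e1 : cnt x y γ l (0 * q ^ M) (0 * q ^ M + N) = #{n ∈ range N | x n < γ ∧ y n < l} := by
    unfold cnt
    rw [Nat.zero_mul, Nat.zero_add, ← Finset.range_eq_Ico]
  rw [e1] at h2
  refine h2.trans ?_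
  have hlog2 : 0 < Real.log 2 := Real.log_pos (by norm_num)
  have hN2 : Real.log 2 ≤ Real.log N := Real.log_le_log (by norm_num) (by exact_mod_cast hN)
  have hlogN : 0 < Real.log N := by linarith
  have hMle : (M : ℝ) ≤ 2 / Real.log 2 * Real.log N := by
    have h3 : ((Nat.log q N : ℕ) : ℝ) * Real.log 2 ≤ Real.log N := by
      have h4 : q ^ Nat.log q N ≤ N := Nat.pow_log_le_self q (by omega)
      have h5 : (2 : ℝ) ^ Nat.log q N ≤ N := by
        calc (2 : ℝ) ^ Nat.log q N ≤ (q : ℝ) ^ Nat.log q N :=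
              pow_le_pow_left₀ (by norm_num) (by exact_mod_cast hq) _
          _ ≤ N := by exact_mod_cast h4
      have h6 := Real.log_le_log (by positivity) h5
      rwa [Real.log_pow] at h6
    have h4 : (M : ℝ) * Real.log 2 ≤ 2 * Real.log N := by
      rw [hM]
      push_cast
      linarith
    rw [div_mul_eq_mul_div, le_div_iff₀ hlog2]
    exact h4
  have hM0 : (0 : ℝ) ≤ M := by positivity
  have h7 : (M : ℝ) ^ 2 ≤ (2 / Real.log 2) ^ 2 * Real.log N ^ 2 := by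
    rw [← mul_pow]
    exact pow_le_pow_left₀ hM0 hMle 2
  have h8 : (1 : ℝ) ≤ 1 / Real.log 2 ^ 2 * Real.log N ^ 2 := by
    rw [one_div, ← div_eq_inv_mul, le_div_iff₀ (by positivity), one_mul]
    exact pow_le_pow_left₀ hlog2.le hN2 2
  have h9 : (q : ℝ) * (M : ℝ) ^ 2 + 1 ≤
      (q * (2 / Real.log 2) ^ 2 + 1 / Real.log 2 ^ 2) * Real.log N ^ 2 := by
    have := mul_le_mul_of_nonneg_left h7 hqr.le
    nlinarith
  have h10 : 0 ≤ 2 * (q : ℝ) ^ (e + c) := by positivity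
  have := mul_le_mul_of_nonneg_left h9 h10
  linarith

end Pool.Agent.R332.Net
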