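import Mathlib

/-!
# Embedding outerplanar graphs into a lattice with diagonals

Vertices go to integer polynomials, edges to differences `± X ^ a` or `± (X ^ (a + 1) - X ^ a)`.
-/

namespace Pool.Agent.R332.Outer

open Polynomial

/-- the allowed differences -/
def Gen (p : ℤ[X]) : Prop :=
  ∃ a : ℕ, p = X ^ a ∨ p = -X ^ a ∨ p = X ^ (a + 1) - X ^ a ∨ p = X ^ a - X ^ (a + 1)

theorem Gen.neg {p : ℤ[X]} (h : Gen p) : Gen (-p) := by
  obtain ⟨a, h | h | h | h⟩ := h
  · exact ⟨a, Or.inr (Or.inl (by rw [h]))⟩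
  · exact ⟨a, Or.inl (by rw [h, neg_neg])⟩
  · exact ⟨a, Or.inr (Or.inr (Or.inr (by rw [h, neg_sub])))⟩
  · exact ⟨a, Or.inr (Or.inr (Or.inl (by rw [h, neg_sub])))⟩

theorem gen_pow (a : ℕ) : Gen (X ^ a) := ⟨a, Or.inl rfl⟩

/-- the first nonzero coefficient from index `k` on exists and has sign `τ` -/
def Lead (w : ℤ[X]) (k : ℕ) (τ : ℤ) : Prop :=
  ∃ j, k ≤ j ∧ (∀ i, k ≤ i → i < j → w.coeff i = 0) ∧ 0 < τ * w.coeff j

theorem Lead.not_neg {w : ℤ[X]} {k : ℕ} {τ : ℤ} (h1 : Lead w k τ) (h2 : Lead w k (-τ)) : False := by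
  obtain ⟨j, hj, hz, hp⟩ := h1
  obtain ⟨j', hj', hz', hp'⟩ := h2
  rcases lt_trichotomy j j' with h | h | h
  · rw [hz' j hj h] at hp; simp at hp
  · subst h; nlinarith
  · rw [hz j' hj' h] at hp'; simp at hp'

/-- the region beyond a unit side -/
def Reg (k : ℕ) (τ : ℤ) (w : ℤ[X]) : Prop :=
  (∀ i < k, w.coeff i = 0) ∧ (w.coeff k = 0 ∨ w.coeff k = 1) ∧
    (0 < w.coeff (k + 1) ∨ (w.coeff (k + 1) = 0 ∧ Lead w (k + 2) τ))

/-- the regions beyond the lateral sides -/
def RegJ (k : ℕ) (ε τ : ℤ) (w : ℤ[X]) : Prop :=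
  (∀ i < k, w.coeff i = 0) ∧ w.coeff k = ε ∧ (w.coeff (k + 1) = 0 ∨ w.coeff (k + 1) = 1) ∧
    Lead w (k + 2) τ

/-- the region beyond the opposite side -/
def RegK (k : ℕ) (τ : ℤ) (w : ℤ[X]) : Prop :=
  (∀ i < k, w.coeff i = 0) ∧ (w.coeff k = 0 ∨ w.coeff k = 1) ∧
    (2 ≤ w.coeff (k + 1) ∨ (w.coeff (k + 1) = 1 ∧ Lead w (k + 2) (-τ)))

/-- the region beyond a diagonal -/
def RegD (k : ℕ) (τ : ℤ) (w : ℤ[X]) : Prop :=
  w = X ^ k + X ^ (k + 1) ∨ RegJ k 1 τ w ∨ RegK k τ w

theorem RegJ.reg {k : ℕ} {ε τ : ℤ} {w : ℤ[X]} (hε : ε = 0 ∨ ε = 1) (h : RegJ k ε τ w) :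
    Reg k τ w := by
  obtain ⟨h1, h2, h3, h4⟩ := h
  refine ⟨h1, by rw [h2]; exact hε, ?_⟩
  rcases h3 with h3 | h3
  · exact Or.inr ⟨h3, h4⟩
  · exact Or.inl (by rw [h3]; norm_num)

theorem RegK.reg {k : ℕ} {τ : ℤ} {w : ℤ[X]} (h : RegK k τ w) : Reg k τ w := by
  obtain ⟨h1, h2, h3⟩ := h
  refine ⟨h1, h2, Or.inl ?_⟩
  rcases h3 with h3 | h3
  · omega
  · rw [h3.1]; norm_num

theorem RegD.reg {k : ℕ} {τ : ℤ} {w : ℤ[X]} (h : RegD k τ w) : Reg k τ w := by
  rcases h with h | h | h
  · subst h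
    refine ⟨fun i hi => ?_, Or.inr ?_, Or.inl ?_⟩
    · simp [coeff_X_pow, hi.ne, (show i ≠ k + 1 by omega)]
    · simp [coeff_X_pow]
    · simp [coeff_X_pow]
  · exact h.reg (Or.inr rfl)
  · exact h.reg

theorem lead_of {w : ℤ[X]} {k : ℕ} (h : 0 < w.coeff k ∨ (w.coeff k = 0 ∧ Lead w (k + 1) 1)) :
    Lead w k 1 := by
  rcases h with h | ⟨h0, j, hj, hz, hp⟩
  · exact ⟨k, le_rfl, fun i h1 h2 => absurd h1 (by omega), by simpa using h⟩
  · refine ⟨j, by omega, fun i h1 h2 => ?_, hp⟩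
    rcases eq_or_lt_of_le h1 with h | h
    · rw [← h]; exact h0
    · exact hz i h h2

/-- lateral sides, the new growth direction has sign `τ` -/
theorem regJ_of {k : ℕ} {ε τ : ℤ} (hε : ε = 0 ∨ ε = 1) (hτ : τ = 1 ∨ τ = -1) {w' w : ℤ[X]}
    (h : Reg (k + 1) 1 w')
    (hw : w = C ε * X ^ k + (if τ = 1 then 0 else X ^ (k + 1)) + C τ * w') :
    RegJ k ε τ w := by
  obtain ⟨h1, h2, h3⟩ := h
  have hl := lead_of h3
  have hc : ∀ i, w.coeff i = (if i = k then ε else 0) +
      (if τ = 1 then 0 else if i = k + 1 then 1 else 0) + τ * w'.coeff i := by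
    intro i
    rw [hw]
    split_ifs <;> simp_all [coeff_X_pow]
  refine ⟨fun i hi => ?_, ?_, ?_, ?_⟩
  · rw [hc, h1 i (by omega), if_neg (by omega), if_neg (show ¬ i = k + 1 by omega)]
    simp
  · rw [hc, h1 k (by omega), if_pos rfl, if_neg (show ¬ k = k + 1 by omega)]
    simp
  · rw [hc, if_neg (show ¬ k + 1 = k by omega), if_pos (rfl : k + 1 = k + 1)]
    rcases hτ with rfl | rfl
    · rcases h2 with h2 | h2 <;> rw [h2] <;> simp
    · rcases h2 with h2 | h2 <;> rw [h2] <;> simp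
  · obtain ⟨j, hj, hz, hp⟩ := hl
    have hc' : ∀ i, k + 2 ≤ i → w.coeff i = τ * w'.coeff i := by
      intro i hi
      rw [hc, if_neg (by omega), if_neg (show ¬ i = k + 1 by omega)]
      simp
    refine ⟨j, hj, fun i h4 h5 => ?_, ?_⟩
    · rw [hc' i h4, hz i h4 h5, mul_zero]
    · rw [hc' j hj]
      rcases hτ with rfl | rfl <;> linarith

theorem regK_of {k : ℕ} {τ : ℤ} {w' w : ℤ[X]} (h : Reg k (-τ) w') (hw : w = X ^ (k + 1) + w') :
    RegK k τ w := by
  obtain ⟨h1, h2, h3⟩ := h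
  have hc : ∀ i, w.coeff i = (if i = k + 1 then 1 else 0) + w'.coeff i := by
    intro i
    rw [hw]
    simp [coeff_X_pow]
  refine ⟨fun i hi => ?_, ?_, ?_⟩
  · rw [hc, h1 i hi, if_neg (by omega)]; simp
  · rw [hc, if_neg (by omega), zero_add]; exact h2
  · rcases h3 with h3 | ⟨h3, j, hj, hz, hp⟩
    · left; rw [hc, if_pos rfl]; omega
    · right
      refine ⟨by rw [hc, if_pos rfl, h3]; rfl, j, hj, fun i h4 h5 => ?_, ?_⟩
      · rw [hc, if_neg (by omega), hz i h4 h5]; rfl
      · rw [hc, if_neg (by omega), zero_add]; exact hp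

theorem regJ_ne_regK {k : ℕ} {ε τ : ℤ} {w : ℤ[X]} (h1 : RegJ k ε τ w) (h2 : RegK k τ w) :
    False := by
  rcases h2.2.2 with h | h
  · rcases h1.2.2.1 with h' | h' <;> omega
  · exact h1.2.2.2.not_neg h.2

/-! ### Noncrossing relations on the natural numbers -/

/-- a symmetric noncrossing relation -/
structure NC (E : ℕ → ℕ → Prop) : Prop where
  symm : ∀ u v, E u v → E v u
  irrefl : ∀ u, ¬ E u u
  nc : ∀ a b c d, a < b → b < c → c < d → ¬ (E a c ∧ E b d)

/-- `w` realises the relation on the interval spanned by `a` and `b` -/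
def Ok (E : ℕ → ℕ → Prop) (a b : ℕ) (w : ℕ → ℤ[X]) : Prop :=
  (∀ u ∈ Set.uIcc a b, ∀ v ∈ Set.uIcc a b, E u v → Gen (w v - w u)) ∧
    Set.InjOn w (Set.uIcc a b)

/-- edges inside the interval do not cross the chords at `m` -/
def Split (E : ℕ → ℕ → Prop) (a b m : ℕ) : Prop :=
  ((a < m ∧ m < b) ∨ (b < m ∧ m < a)) ∧
    ∀ u ∈ Set.uIcc a b, ∀ v ∈ Set.uIcc a b, E u v →
      (u ∈ Set.uIcc a m ∧ v ∈ Set.uIcc a m) ∨ (u ∈ Set.uIcc m b ∧ v ∈ Set.uIcc m b) ∨
        (u = a ∧ v = b) ∨ (u = b ∧ v = a)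

theorem Split.swap {E : ℕ → ℕ → Prop} {a b m : ℕ} (h : Split E a b m) : Split E b a m := by
  refine ⟨h.1.symm, fun u hu v hv huv => ?_⟩
  rw [Set.uIcc_comm] at hu hv
  rcases h.2 u hu v hv huv with h' | h' | h' | h'
  · right; left; rw [Set.uIcc_comm m a]; exact h'
  · left; rw [Set.uIcc_comm b m]; exact h'
  · right; right; right; exact h'
  · right; right; left; exact h'

theorem exists_split_lt {E : ℕ → ℕ → Prop} (hE : NC E) {a b : ℕ} (hab : a + 1 < b) :
    ∃ m, Split E a b m := by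
  classical
  by_cases hS : ∃ m, a < m ∧ m < b ∧ E a m
  · set S : Finset ℕ := (Finset.Ioo a b).filter (fun m => E a m) with hSd
    have hne : S.Nonempty := by
      obtain ⟨m, h1, h2, h3⟩ := hS
      exact ⟨m, by simp [hSd, h1, h2, h3]⟩
    have hm := S.max'_mem hne
    set m := S.max' hne with hmd
    rw [hSd, Finset.mem_filter, Finset.mem_Ioo] at hm
    obtain ⟨⟨h1, h2⟩, h3⟩ := hm
    refine ⟨m, Or.inl ⟨h1, h2⟩, ?_⟩
    have key : ∀ u v, a ≤ u → u < v → v ≤ b → E u v →
        v ≤ m ∨ m ≤ u ∨ (u = a ∧ v = b) := by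
      intro u v hu huv hv he
      by_contra hcon
      push Not at hcon
      obtain ⟨c1, c2, c3⟩ := hcon
      rcases eq_or_lt_of_le hu with h | h
      · subst h
        have hvb : v ≠ b := c3 rfl
        have : v ∈ S := by
          rw [hSd, Finset.mem_filter, Finset.mem_Ioo]
          exact ⟨⟨huv, lt_of_le_of_ne hv hvb⟩, he⟩
        have := S.le_max' v this
        rw [← hmd] at this
        omega
      · exact hE.nc a u m v h c2 c1 ⟨h3, he⟩
    intro u hu v hv he
    rw [Set.uIcc_of_le (by omega), Set.mem_Icc] at hu hv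
    rw [Set.uIcc_of_le (show a ≤ m by omega), Set.uIcc_of_le (show m ≤ b by omega)]
    simp only [Set.mem_Icc]
    rcases lt_trichotomy u v with h | h | h
    · rcases key u v hu.1 h hv.2 he with h' | h' | h'
      · left; omega
      · right; left; omega
      · right; right; left; exact h'
    · subst h; exact absurd he (hE.irrefl u)
    · rcases key v u hv.1 h hu.2 (hE.symm _ _ he) with h' | h' | h'
      · left; omega
      · right; left; omega
      · right; right; right; exact ⟨h'.2, h'.1⟩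
  · push Not at hS
    refine ⟨a + 1, Or.inl ⟨by omega, hab⟩, ?_⟩
    have key : ∀ u v, a ≤ u → u < v → v ≤ b → E u v →
        v ≤ a + 1 ∨ a + 1 ≤ u ∨ (u = a ∧ v = b) := by
      intro u v hu huv hv he
      by_contra hcon
      push Not at hcon
      obtain ⟨c1, c2, c3⟩ := hcon
      have hua : u = a := by omega
      have hvb := c3 hua
      subst hua
      exact hS v huv (lt_of_le_of_ne hv hvb) he
    intro u hu v hv he
    rw [Set.uIcc_of_le (by omega), Set.mem_Icc] at hu hv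
    rw [Set.uIcc_of_le (show a ≤ a + 1 by omega), Set.uIcc_of_le (show a + 1 ≤ b by omega)]
    simp only [Set.mem_Icc]
    rcases lt_trichotomy u v with h | h | h
    · rcases key u v hu.1 h hv.2 he with h' | h' | h'
      · left; omega
      · right; left; omega
      · right; right; left; exact h'
    · subst h; exact absurd he (hE.irrefl u)
    · rcases key v u hv.1 h hu.2 (hE.symm _ _ he) with h' | h' | h'
      · left; omega
      · right; left; omega
      · right; right; right; exact ⟨h'.2, h'.1⟩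

theorem exists_split {E : ℕ → ℕ → Prop} (hE : NC E) {a b : ℕ} (hab : a ≠ b)
    (h1 : b ≠ a + 1) (h2 : a ≠ b + 1) : ∃ m, Split E a b m := by
  rcases lt_or_gt_of_ne hab with h | h
  · exact exists_split_lt hE (by omega)
  · obtain ⟨m, hm⟩ := exists_split_lt hE (show b + 1 < a by omega)
    exact ⟨m, hm.swap⟩

theorem glue {E : ℕ → ℕ → Prop} {a b m : ℕ} (hs : Split E a b m) {w1 w2 : ℕ → ℤ[X]}
    (h1 : Ok E a m w1) (h2 : Ok E m b w2) (hmm : w1 m = w2 m) (hab : Gen (w2 b - w1 a))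
    (hcross : ∀ u ∈ Set.uIcc a m, ∀ v ∈ Set.uIcc m b, u ≠ m → v ≠ m → w1 u ≠ w2 v) :
    ∃ w : ℕ → ℤ[X], (∀ u ∈ Set.uIcc a m, w u = w1 u) ∧ (∀ v ∈ Set.uIcc m b, w v = w2 v) ∧
      Ok E a b w := by
  classical
  set w : ℕ → ℤ[X] := fun u => if u ∈ Set.uIcc a m then w1 u else w2 u with hw
  have hint : ∀ u, u ∈ Set.uIcc a m → u ∈ Set.uIcc m b → u = m := by
    intro u hu hv
    rw [Set.mem_uIcc] at hu hv
    rcases hs.1 with h | h <;> omega
  have hun : ∀ u, u ∈ Set.uIcc a b → u ∈ Set.uIcc a m ∨ u ∈ Set.uIcc m b := by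
    intro u hu
    rw [Set.mem_uIcc] at hu
    rw [Set.mem_uIcc, Set.mem_uIcc]
    rcases hs.1 with h | h <;> omega
  have e1 : ∀ u ∈ Set.uIcc a m, w u = w1 u := fun u hu => by rw [hw]; simp only [if_pos hu]
  have e2 : ∀ v ∈ Set.uIcc m b, w v = w2 v := by
    intro v hv
    by_cases h : v ∈ Set.uIcc a m
    · have := hint v h hv
      subst this
      rw [e1 v h, hmm]
    · rw [hw]; simp only [if_neg h]
  refine ⟨w, e1, e2, ?_, ?_⟩
  · intro u hu v hv he
    rcases hs.2 u hu v hv he with h | h | h | h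
    · rw [e1 u h.1, e1 v h.2]; exact h1.1 u h.1 v h.2 he
    · rw [e2 u h.1, e2 v h.2]; exact h2.1 u h.1 v h.2 he
    · rw [h.1, h.2, e1 a Set.left_mem_uIcc, e2 b Set.right_mem_uIcc]; exact hab
    · rw [h.1, h.2, e1 a Set.left_mem_uIcc, e2 b Set.right_mem_uIcc, ← neg_sub]
      exact hab.neg
  · intro u hu v hv he
    rcases hun u hu with hu' | hu' <;> rcases hun v hv with hv' | hv'
    · rw [e1 u hu', e1 v hv'] at he
      exact h1.2 hu' hv' he
    · by_cases hum : u = m
      · subst hum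
        rw [e2 u Set.left_mem_uIcc, e2 v hv'] at he
        exact h2.2 Set.left_mem_uIcc hv' he
      · by_cases hvm : v = m
        · subst hvm
          rw [e1 u hu', e1 v Set.right_mem_uIcc] at he
          exact h1.2 hu' Set.right_mem_uIcc he
        · rw [e1 u hu', e2 v hv'] at he
          exact absurd he (hcross u hu' v hv' hum hvm)
    · by_cases hvm : v = m
      · subst hvm
        rw [e2 u hu', e2 v Set.left_mem_uIcc] at he
        exact h2.2 hu' Set.left_mem_uIcc he
      · by_cases hum : u = m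
        · subst hum
          rw [e1 u Set.right_mem_uIcc, e1 v hv'] at he
          exact h1.2 Set.right_mem_uIcc hv' he
        · rw [e2 u hu', e1 v hv'] at he
          exact absurd he.symm (hcross v hv' u hu' hvm hum)
    · rw [e2 u hu', e2 v hv'] at he
      exact h2.2 hu' hv' he

theorem Ok.affine {E : ℕ → ℕ → Prop} {a b : ℕ} {w : ℕ → ℤ[X]} (h : Ok E a b w) (c : ℤ[X])
    {τ : ℤ} (hτ : τ = 1 ∨ τ = -1) : Ok E a b (fun u => c + C τ * w u) := by
  refine ⟨fun u hu v hv he => ?_, fun u hu v hv he => ?_⟩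
  · have := h.1 u hu v hv he
    rcases hτ with rfl | rfl
    · simpa using this
    · have e : c + C (-1) * w v - (c + C (-1) * w u) = -(w v - w u) := by
        simp; ring
      show Gen (c + C (-1) * w v - (c + C (-1) * w u))
      rw [e]; exact this.neg
  · apply h.2 hu hv
    have he' : c + C τ * w u = c + C τ * w v := he
    rcases hτ with rfl | rfl
    · simpa using he'
    · simpa using he'

theorem Ok.swap {E : ℕ → ℕ → Prop} {a b : ℕ} {w : ℕ → ℤ[X]} (h : Ok E a b w) : Ok E b a w := by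
  unfold Ok at *
  rw [Set.uIcc_comm]
  exact h

/-- the statement for unit sides -/
def Side (E : ℕ → ℕ → Prop) (a b : ℕ) : Prop :=
  ∀ (k : ℕ) (τ : ℤ), (τ = 1 ∨ τ = -1) → ∃ w : ℕ → ℤ[X], w a = 0 ∧ w b = X ^ k ∧ Ok E a b w ∧
    ∀ u ∈ Set.uIcc a b, u ≠ a → u ≠ b → Reg k τ (w u)

/-- the statement for diagonals -/
def Diag (E : ℕ → ℕ → Prop) (a b : ℕ) : Prop :=
  ∀ (k : ℕ) (τ : ℤ), (τ = 1 ∨ τ = -1) → ∃ w : ℕ → ℤ[X], w a = X ^ k ∧ w b = X ^ (k + 1) ∧
    Ok E a b w ∧ ∀ u ∈ Set.uIcc a b, u ≠ a → u ≠ b → RegD k τ (w u)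

/-- the lateral side -/
theorem lateral {E : ℕ → ℕ → Prop} {a m : ℕ} (h1 : Side E a m) (h2 : Side E m a) (k : ℕ)
    {ε τ : ℤ} (hε : ε = 0 ∨ ε = 1) (hτ : τ = 1 ∨ τ = -1) :
    ∃ w : ℕ → ℤ[X], w a = C ε * X ^ k ∧ w m = C ε * X ^ k + X ^ (k + 1) ∧ Ok E a m w ∧
      ∀ u ∈ Set.uIcc a m, u ≠ a → u ≠ m → RegJ k ε τ (w u) := by
  rcases hτ with rfl | rfl
  · obtain ⟨w', ha, hm, hok, hreg⟩ := h1 (k + 1) 1 (Or.inl rfl)
    refine ⟨fun u => C ε * X ^ k + C 1 * w' u, by simp [ha], by simp [hm],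
      hok.affine _ (Or.inl rfl), fun u hu hua hum => ?_⟩
    apply regJ_of hε (Or.inl rfl) (hreg u hu hua hum)
    simp
  · obtain ⟨w', hm, ha, hok, hreg⟩ := h2 (k + 1) 1 (Or.inl rfl)
    refine ⟨fun u => C ε * X ^ k + X ^ (k + 1) + C (-1) * w' u, by simp [ha], by simp [hm],
      (hok.affine _ (Or.inr rfl)).swap, fun u hu hua hum => ?_⟩
    apply regJ_of hε (Or.inr rfl) (hreg u (by rwa [Set.uIcc_comm]) hum hua)
    simp

theorem two_points {E : ℕ → ℕ → Prop} (hE : NC E) {a b : ℕ} (hab : b = a + 1 ∨ a = b + 1)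
    {p q : ℤ[X]} (hpq : p ≠ q) (hg : Gen (q - p)) :
    ∃ w : ℕ → ℤ[X], w a = p ∧ w b = q ∧ Ok E a b w ∧
      ∀ u ∈ Set.uIcc a b, u = a ∨ u = b := by
  classical
  have hne : b ≠ a := by omega
  have key : ∀ u ∈ Set.uIcc a b, u = a ∨ u = b := by
    intro u hu
    rw [Set.mem_uIcc] at hu
    omega
  refine ⟨fun u => if u = a then p else q, by simp, by simp [hne], ⟨?_, ?_⟩, key⟩
  · intro u hu v hv he
    rcases key u hu with rfl | rfl <;> rcases key v hv with rfl | rfl
    · exact absurd he (hE.irrefl _)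
    · simpa [hne] using hg
    · simp only [if_neg hne, if_true]
      rw [← neg_sub]
      exact hg.neg
    · exact absurd he (hE.irrefl _)
  · intro u hu v hv he
    rcases key u hu with rfl | rfl <;> rcases key v hv with rfl | rfl
    · rfl
    · simp only [if_neg hne, if_true] at he
      exact absurd he hpq
    · simp only [if_neg hne, if_true] at he
      exact absurd he.symm hpq
    · rfl

theorem pow_ne (k : ℕ) : (X ^ k : ℤ[X]) ≠ X ^ (k + 1) := by
  intro h
  have := congrArg (fun p => coeff p k) h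
  simp [coeff_X_pow] at this

theorem diag_step {E : ℕ → ℕ → Prop} (hE : NC E) {a b : ℕ} (hab : a ≠ b)
    (ih : ∀ a' b', a' ≠ b' → Nat.dist a' b' < Nat.dist a b → Side E a' b') : Diag E a b := by
  intro k τ hτ
  by_cases hadj : b = a + 1 ∨ a = b + 1
  · obtain ⟨w, h1, h2, h3, h4⟩ := two_points hE hadj (pow_ne k)
      ⟨k, Or.inr (Or.inr (Or.inl rfl))⟩
    refine ⟨w, h1, h2, h3, fun u hu h5 h6 => ?_⟩
    rcases h4 u hu with h | h
    · exact absurd h h5
    · exact absurd h h6
  · push Not at hadj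
    obtain ⟨m, hm⟩ := exists_split hE hab hadj.1 hadj.2
    have d1 : Nat.dist a m < Nat.dist a b := by
      unfold Nat.dist; rcases hm.1 with h | h <;> omega
    have d2 : Nat.dist m a < Nat.dist a b := by
      unfold Nat.dist; rcases hm.1 with h | h <;> omega
    have d3 : Nat.dist b m < Nat.dist a b := by
      unfold Nat.dist; rcases hm.1 with h | h <;> omega
    have n1 : a ≠ m := by rcases hm.1 with h | h <;> omega
    have n2 : b ≠ m := by rcases hm.1 with h | h <;> omega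
    obtain ⟨w1, p1, p2, p3, p4⟩ := lateral (ih a m n1 d1) (ih m a n1.symm d2) k
      (Or.inr rfl : (1 : ℤ) = 0 ∨ (1 : ℤ) = 1) hτ
    obtain ⟨w', q1, q2, q3, q4⟩ := ih b m n2 d3 k (-τ) (by rcases hτ with rfl | rfl <;> simp)
    set w2 : ℕ → ℤ[X] := fun u => X ^ (k + 1) + C 1 * w' u with hw2
    have r3 : Ok E m b w2 := (q3.affine _ (Or.inl rfl)).swap
    have r1 : w2 b = X ^ (k + 1) := by simp [hw2, q1]
    have r2 : w2 m = X ^ (k + 1) + X ^ k := by simp [hw2, q2]
    have r4 : ∀ u ∈ Set.uIcc m b, u ≠ m → u ≠ b → RegK k τ (w2 u) := by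
      intro u hu hum hub
      apply regK_of (q4 u (by rwa [Set.uIcc_comm]) hub hum)
      simp [hw2]
    simp only [map_one, one_mul] at p1 p2
    obtain ⟨w, e1, e2, e3⟩ := glue hm p3 r3 (by rw [p2, r2, add_comm])
      (by rw [r1, p1]; exact ⟨k, Or.inr (Or.inr (Or.inl rfl))⟩) (by
        intro u hu v hv hum hvm he
        by_cases hua : u = a
        · rw [hua, p1] at he
          by_cases hvb : v = b
          · rw [hvb, r1] at he
            exact pow_ne k he
          · have hK := r4 v hv hvm hvb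
            rw [← he] at hK
            have := hK.2.2
            simp [coeff_X_pow] at this
        · have hJ := p4 u hu hua hum
          by_cases hvb : v = b
          · rw [he, hvb, r1] at hJ
            have := hJ.2.1
            simp [coeff_X_pow] at this
          · have hK := r4 v hv hvm hvb
            rw [← he] at hK
            exact regJ_ne_regK hJ hK)
    refine ⟨w, by rw [e1 a Set.left_mem_uIcc, p1], by rw [e2 b Set.right_mem_uIcc, r1], e3, ?_⟩
    intro u hu hua hub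
    by_cases hum : u = m
    · left
      rw [hum, e1 m Set.right_mem_uIcc, p2]
    · have hu' : u ∈ Set.uIcc a m ∨ u ∈ Set.uIcc m b := by
        rw [Set.mem_uIcc] at hu
        rw [Set.mem_uIcc, Set.mem_uIcc]
        rcases hm.1 with h | h <;> omega
      rcases hu' with h | h
      · right; left
        rw [e1 u h]
        exact p4 u h hua hum
      · right; right
        rw [e2 u h]
        exact r4 u h hum hub

theorem side_step {E : ℕ → ℕ → Prop} (hE : NC E) {a b : ℕ} (hab : a ≠ b)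
    (ih : ∀ a' b', a' ≠ b' → Nat.dist a' b' < Nat.dist a b → Side E a' b') : Side E a b := by
  intro k τ hτ
  by_cases hadj : b = a + 1 ∨ a = b + 1
  · obtain ⟨w, h1, h2, h3, h4⟩ := two_points hE hadj (p := 0) (q := X ^ k)
      (by
        intro h
        have := congrArg (fun p => coeff p k) h
        simp at this)
      (by rw [sub_zero]; exact gen_pow k)
    refine ⟨w, h1, h2, h3, fun u hu h5 h6 => ?_⟩
    rcases h4 u hu with h | h
    · exact absurd h h5
    · exact absurd h h6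
  · push Not at hadj
    obtain ⟨m, hm⟩ := exists_split hE hab hadj.1 hadj.2
    have d1 : Nat.dist a m < Nat.dist a b := by
      unfold Nat.dist; rcases hm.1 with h | h <;> omega
    have d2 : Nat.dist m a < Nat.dist a b := by
      unfold Nat.dist; rcases hm.1 with h | h <;> omega
    have d3 : Nat.dist b m < Nat.dist a b := by
      unfold Nat.dist; rcases hm.1 with h | h <;> omega
    have n1 : a ≠ m := by rcases hm.1 with h | h <;> omega
    have n2 : b ≠ m := by rcases hm.1 with h | h <;> omega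
    obtain ⟨w1, p1, p2, p3, p4⟩ := lateral (ih a m n1 d1) (ih m a n1.symm d2) k
      (Or.inl rfl : (0 : ℤ) = 0 ∨ (0 : ℤ) = 1) hτ
    have hd : Diag E b m := diag_step hE n2 (fun a' b' h1 h2 => ih a' b' h1 (h2.trans d3))
    obtain ⟨w2, q1, q2, q3, q4⟩ := hd k τ hτ
    simp only [map_zero, zero_mul, zero_add] at p1 p2
    have r4 : ∀ u ∈ Set.uIcc m b, u ≠ m → u ≠ b → RegD k τ (w2 u) := fun u hu hum hub =>
      q4 u (by rwa [Set.uIcc_comm]) hub hum
    obtain ⟨w, e1, e2, e3⟩ := glue hm p3 q3.swap (by rw [p2, q2])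
      (by rw [q1, p1, sub_zero]; exact gen_pow k) (by
        intro u hu v hv hum hvm he
        by_cases hua : u = a
        · rw [hua, p1] at he
          by_cases hvb : v = b
          · rw [hvb, q1] at he
            have := congrArg (fun p => coeff p k) he
            simp at this
          · have hK := (r4 v hv hvm hvb).reg
            rw [← he] at hK
            obtain ⟨-, -, h | ⟨-, j, -, -, h⟩⟩ := hK
            · simp at h
            · simp at h
        · have hJ := p4 u hu hua hum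
          by_cases hvb : v = b
          · rw [he, hvb, q1] at hJ
            have := hJ.2.1
            simp at this
          · rcases r4 v hv hvm hvb with hK | hK | hK
            · rw [he, hK] at hJ
              have := hJ.2.1
              simp [coeff_X_pow] at this
            · rw [← he] at hK
              have h1 := hJ.2.1
              have h2 := hK.2.1
              omega
            · rw [← he] at hK
              exact regJ_ne_regK hJ hK)
    refine ⟨w, by rw [e1 a Set.left_mem_uIcc, p1], by rw [e2 b Set.right_mem_uIcc, q1], e3, ?_⟩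
    intro u hu hua hub
    by_cases hum : u = m
    · rw [hum, e1 m Set.right_mem_uIcc, p2]
      refine ⟨fun i hi => ?_, Or.inl ?_, Or.inl ?_⟩
      · rw [coeff_X_pow, if_neg (by omega)]
      · rw [coeff_X_pow, if_neg (by omega)]
      · rw [coeff_X_pow, if_pos rfl]; norm_num
    · have hu' : u ∈ Set.uIcc a m ∨ u ∈ Set.uIcc m b := by
        rw [Set.mem_uIcc] at hu
        rw [Set.mem_uIcc, Set.mem_uIcc]
        rcases hm.1 with h | h <;> omega
      rcases hu' with h | h
      · rw [e1 u h]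
        exact (p4 u h hua hum).reg (Or.inl rfl)
      · rw [e2 u h]
        exact (r4 u h hum hub).reg

theorem side_all {E : ℕ → ℕ → Prop} (hE : NC E) : ∀ n a b, a ≠ b → Nat.dist a b ≤ n →
    Side E a b := by
  intro n
  induction n with
  | zero =>
    intro a b hab h
    exact absurd (Nat.eq_of_dist_eq_zero (by omega)) hab
  | succ n ih =>
    intro a b hab h
    exact side_step hE hab (fun a' b' h1 h2 => ih a' b' h1 (by omega))

/-- the combinatorial embedding theorem -/
theorem embed {E : ℕ → ℕ → Prop} (hE : NC E) (N : ℕ) : ∃ w : ℕ → ℤ[X],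
    (∀ u ≤ N, ∀ v ≤ N, E u v → Gen (w v - w u)) ∧ Set.InjOn w {u | u ≤ N} := by
  obtain ⟨w, -, -, h, -⟩ := side_all hE _ 0 (N + 1) (by omega) le_rfl 0 1 (Or.inl rfl)
  have hm : ∀ u, u ≤ N → u ∈ Set.uIcc 0 (N + 1) := by
    intro u hu
    rw [Set.mem_uIcc]; omega
  exact ⟨w, fun u hu v hv he => h.1 u (hm u hu) v (hm v hv) he,
    fun u hu v hv he => h.2 (hm u hu) (hm v hv) he⟩

end Pool.Agent.R332.Outer
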