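import Mathlib
import Pool.Agent.Helper206.BoxS.IoD

/-!
# Images of pieces of hyperplanes under injective continuous maps
-/

open Metric Set Filter Topology

namespace Pool.Agent.R332.SepLiou

/-- matrices with the supremum norm -/
abbrev Mat (m n : ℕ) : Type := Fin m → Fin n → ℝ

/-- invariance of domain in a finite-dimensional normed space -/
theorem image_open {V : Type*} [NormedAddCommGroup V] [NormedSpace ℝ V] [FiniteDimensional ℝ V]
    {U : Set V} (f : V → V) (hc : ContinuousOn f U) (hi : InjOn f U)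
    {S : Set V} (hS : IsOpen S) (hSU : S ⊆ U) : IsOpen (f '' S) := by
  let E := EuclideanSpace ℝ (Fin (Module.finrank ℝ V))
  let L : V ≃L[ℝ] E := toEuclidean
  have key : IsOpen ((fun y => L (f (L.symm y))) '' (L.symm ⁻¹' S)) := by
    rw [isOpen_iff_mem_nhds]
    rintro _ ⟨x, hx, rfl⟩
    have hopen : IsOpen (L.symm ⁻¹' S) := hS.preimage L.symm.continuous
    obtain ⟨r, hr, hball⟩ := Metric.nhds_basis_closedBall.mem_iff.1 (hopen.mem_nhds hx)
    have hg := Pool.Agent.Helper206.BoxS.IoD.image_mem_nhds (E := E)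
      (fun y => L (f (L.symm y))) x r hr
      (by
        apply L.continuous.comp_continuousOn
        apply hc.comp L.symm.continuous.continuousOn
        intro y hy
        exact hSU (hball hy))
      (by
        intro a ha b hb hab
        exact L.symm.injective (hi (hSU (hball ha)) (hSU (hball hb)) (L.injective hab)))
    exact Filter.mem_of_superset hg (Set.image_mono hball)
  have h2 : f '' S = L ⁻¹' ((fun y => L (f (L.symm y))) '' (L.symm ⁻¹' S)) := by
    ext z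
    constructor
    · rintro ⟨x, hx, rfl⟩
      exact ⟨L x, by simpa using hx, by simp⟩
    · rintro ⟨y, hy, hyz⟩
      exact ⟨L.symm y, hy, L.injective hyz⟩
  rw [h2]
  exact key.preimage L.continuous

variable {m n : ℕ}

theorem mem_ball_iff {A B : Mat m n} {r : ℝ} (hr : 0 < r) :
    A ∈ ball B r ↔ ∀ i j, |A i j - B i j| < r := by
  rw [mem_ball, dist_pi_lt_iff hr]
  refine forall_congr' fun i => ?_
  rw [dist_pi_lt_iff hr]
  rfl

/-- replace the entry `(i, j)` by `y` -/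
def setEntry (i₀ : Fin m) (j₀ : Fin n) (y : ℝ) (A : Mat m n) : Mat m n :=
  fun i j => if i = i₀ ∧ j = j₀ then y else A i j

theorem setEntry_same (i₀ : Fin m) (j₀ : Fin n) (y : ℝ) (A : Mat m n) :
    setEntry i₀ j₀ y A i₀ j₀ = y := by simp [setEntry]

theorem setEntry_self (i₀ : Fin m) (j₀ : Fin n) (A : Mat m n) :
    setEntry i₀ j₀ (A i₀ j₀) A = A := by
  funext i j
  unfold setEntry
  split_ifs with h
  · rw [h.1, h.2]
  · rfl

theorem setEntry_setEntry (i₀ : Fin m) (j₀ : Fin n) (y z : ℝ) (A : Mat m n) :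
    setEntry i₀ j₀ y (setEntry i₀ j₀ z A) = setEntry i₀ j₀ y A := by
  funext i j
  unfold setEntry
  split_ifs with h <;> rfl

theorem continuous_setEntry (i₀ : Fin m) (j₀ : Fin n) (y : ℝ) :
    Continuous (setEntry i₀ j₀ y : Mat m n → Mat m n) := by
  refine continuous_pi fun i => continuous_pi fun j => ?_
  unfold setEntry
  split_ifs with h
  · exact continuous_const
  · exact (continuous_apply j).comp (continuous_apply i)

/-- the two sides of the image of a piece of a hyperplane -/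
theorem sep {U : Set (Mat m n)} (f : Mat m n → Mat m n) (hc : ContinuousOn f U)
    (hi : InjOn f U) (i₀ : Fin m) (j₀ : Fin n) (a : Mat m n) (r : ℝ) (hr : 0 < r)
    (hball : ball a r ⊆ U) :
    ∃ (ρ : ℝ) (P M : Set (Mat m n)), 0 < ρ ∧ IsOpen P ∧ IsOpen M ∧ Disjoint P M ∧
      ball (f a) ρ ⊆ P ∪ M ∪ f '' (ball a r ∩ {A | A i₀ j₀ = a i₀ j₀}) ∧
      Disjoint (P ∪ M) (f '' (ball a r ∩ {A | A i₀ j₀ = a i₀ j₀})) ∧
      (P ∩ ball (f a) ρ).Nonempty ∧ (M ∩ ball (f a) ρ).Nonempty := by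
  have hcoord : Continuous fun A : Mat m n => A i₀ j₀ :=
    (continuous_apply j₀).comp (continuous_apply i₀)
  set P := f '' (ball a r ∩ {A | a i₀ j₀ < A i₀ j₀}) with hP
  set M := f '' (ball a r ∩ {A | A i₀ j₀ < a i₀ j₀}) with hM
  have hPo : IsOpen P := image_open f hc hi
    (isOpen_ball.inter (isOpen_lt continuous_const hcoord)) (inter_subset_left.trans hball)
  have hMo : IsOpen M := image_open f hc hi
    (isOpen_ball.inter (isOpen_lt hcoord continuous_const)) (inter_subset_left.trans hball)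
  have hWo : IsOpen (f '' ball a r) := image_open f hc hi isOpen_ball hball
  obtain ⟨ρ, hρ, hρW⟩ := Metric.isOpen_iff.1 hWo (f a) ⟨a, mem_ball_self hr, rfl⟩
  have hca : ContinuousAt f a := hc.continuousAt (Filter.mem_of_superset (ball_mem_nhds a hr) hball)
  obtain ⟨δ, hδ, hδf⟩ := Metric.continuousAt_iff.1 hca ρ hρ
  have hside : ∀ t : ℝ, |t| < min δ r → setEntry i₀ j₀ (a i₀ j₀ + t) a ∈ ball a r ∧
      f (setEntry i₀ j₀ (a i₀ j₀ + t) a) ∈ ball (f a) ρ := by
    intro t ht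
    have h1 : ∀ s : ℝ, 0 < s → |t| < s → setEntry i₀ j₀ (a i₀ j₀ + t) a ∈ ball a s := by
      intro s hs hts
      rw [mem_ball_iff hs]
      intro i j
      unfold setEntry
      split_ifs with h
      · rw [h.1, h.2, add_sub_cancel_left]; exact hts
      · rw [sub_self, abs_zero]; exact hs
    exact ⟨h1 r hr (ht.trans_le (min_le_right _ _)),
      hδf (h1 δ hδ (ht.trans_le (min_le_left _ _)))⟩
  set s := min δ r / 2 with hs
  have hmin : 0 < min δ r := lt_min hδ hr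
  have hs0 : 0 < s := by positivity
  have hs1 : |s| < min δ r := by rw [abs_of_pos hs0, hs]; linarith
  have hs2 : |-s| < min δ r := by rw [abs_neg]; exact hs1
  refine ⟨ρ, P, M, hρ, hPo, hMo, ?_, ?_, ?_, ?_, ?_⟩
  · rw [disjoint_left]
    rintro _ ⟨A, ⟨hA1, hA2⟩, rfl⟩ ⟨B, ⟨hB1, hB2⟩, hAB⟩
    have h0 := hi (hball hB1) (hball hA1) hAB
    have h1 : a i₀ j₀ < A i₀ j₀ := hA2
    have h2 : B i₀ j₀ < a i₀ j₀ := hB2
    rw [h0] at h2
    exact lt_asymm h1 h2
  · intro x hx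
    obtain ⟨A, hA, rfl⟩ := hρW hx
    rcases lt_trichotomy (A i₀ j₀) (a i₀ j₀) with h | h | h
    · exact Or.inl (Or.inr ⟨A, ⟨hA, h⟩, rfl⟩)
    · exact Or.inr ⟨A, ⟨hA, h⟩, rfl⟩
    · exact Or.inl (Or.inl ⟨A, ⟨hA, h⟩, rfl⟩)
  · rw [disjoint_left]
    rintro _ (⟨A, ⟨hA1, hA2⟩, rfl⟩ | ⟨A, ⟨hA1, hA2⟩, rfl⟩) ⟨B, ⟨hB1, hB2⟩, hAB⟩
    · have := hi (hball hB1) (hball hA1) hAB
      subst this
      exact absurd hB2 (ne_of_gt hA2)
    · have := hi (hball hB1) (hball hA1) hAB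
      subst this
      exact absurd hB2 (ne_of_lt hA2)
  · obtain ⟨h1, h2⟩ := hside s hs1
    refine ⟨_, ⟨_, ⟨h1, ?_⟩, rfl⟩, h2⟩
    show a i₀ j₀ < setEntry i₀ j₀ (a i₀ j₀ + s) a i₀ j₀
    rw [setEntry_same]
    linarith
  · obtain ⟨h1, h2⟩ := hside (-s) hs2
    refine ⟨_, ⟨_, ⟨h1, ?_⟩, rfl⟩, h2⟩
    show setEntry i₀ j₀ (a i₀ j₀ + -s) a i₀ j₀ < a i₀ j₀
    rw [setEntry_same]
    linarith

/-- a convex subset of a disjoint union of two open sets which meets the first one is contained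
in the first one -/
theorem convex_side {P M S : Set (Mat m n)} (hP : IsOpen P) (hM : IsOpen M) (hPM : Disjoint P M)
    (hS : Convex ℝ S) (hSPM : S ⊆ P ∪ M) {x : Mat m n} (hx : x ∈ S) (hxP : x ∈ P) : S ⊆ P := by
  rcases IsPreconnected.subset_or_subset hP hM hPM hSPM hS.isPreconnected with h | h
  · exact h
  · exact absurd (h hx) (disjoint_left.1 hPM hxP)

/-- matrices with a rational column are dense -/
theorem exists_rational_column {O : Set (Mat m n)} (hO : IsOpen O) (hne : O.Nonempty)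
    (l : Fin n) : ∃ A ∈ O, ∀ i, ∃ c : ℚ, A i l = c := by
  obtain ⟨B, hB⟩ := hne
  obtain ⟨ε, hε, hball⟩ := Metric.isOpen_iff.1 hO B hB
  have h1 : ∀ i, ∃ c : ℚ, |(c : ℝ) - B i l| < ε := by
    intro i
    obtain ⟨c, hc1, hc2⟩ := exists_rat_btwn (show B i l < B i l + ε by linarith)
    exact ⟨c, by rw [abs_of_pos (by linarith)]; linarith⟩
  choose c hc using h1
  refine ⟨fun i j => if j = l then (c i : ℝ) else B i j, hball ?_, fun i => ⟨c i, by simp⟩⟩
  rw [mem_ball_iff hε]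
  intro i j
  by_cases h : j = l
  · subst h; simpa using hc i
  · simpa [h] using hε

/-- a piece of a hyperplane is not mapped to the matrices without rational columns -/
theorem column_hit {U : Set (Mat m n)} (f : Mat m n → Mat m n) (hc : ContinuousOn f U)
    (hi : InjOn f U) (i₀ : Fin m) (j₀ : Fin n) (a : Mat m n) (r : ℝ) (hr : 0 < r)
    (hball : ball a r ⊆ U) (l₀ l₁ : Fin n) (hl : l₀ ≠ l₁) (F : Set (Mat m n))
    (hF : ∀ A : Mat m n, ∀ l, (∀ i, ∃ c : ℚ, A i l = c) → A ∉ F)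
    (hD : ∀ A ∈ ball a r, A i₀ j₀ = a i₀ j₀ → f A ∈ F) : False := by
  obtain ⟨ρ, P, M, hρ, hPo, hMo, hPM, hcov, -, hPne, hMne⟩ := sep f hc hi i₀ j₀ a r hr hball
  obtain ⟨x, hx, hxr⟩ := exists_rational_column (hPo.inter isOpen_ball) hPne l₀
  obtain ⟨z, hz, hzr⟩ := exists_rational_column (hMo.inter isOpen_ball) hMne l₁
  -- the slices
  have hslice : ∀ (l : Fin n) (x : Mat m n), (∀ i, ∃ c : ℚ, x i l = c) →
      {A : Mat m n | A ∈ ball (f a) ρ ∧ ∀ i, A i l = x i l} ⊆ P ∪ M := by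
    rintro l x hx A ⟨hA1, hA2⟩
    rcases hcov hA1 with h | ⟨B, ⟨hB1, hB2⟩, rfl⟩
    · exact h
    · exact absurd (hD B hB1 hB2) (hF _ l fun i => by rw [hA2 i]; exact hx i)
  have hconv : ∀ (l : Fin n) (x : Mat m n),
      Convex ℝ {A : Mat m n | A ∈ ball (f a) ρ ∧ ∀ i, A i l = x i l} := by
    intro l x A hA B hB s t hs ht hst
    refine ⟨convex_ball _ _ hA.1 hB.1 hs ht hst, fun i => ?_⟩
    show s * A i l + t * B i l = x i l
    rw [hA.2, hB.2, ← add_mul, hst, one_mul]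
  have h1 := convex_side hPo hMo hPM (hconv l₀ x) (hslice l₀ x hxr) ⟨hx.2, fun i => rfl⟩ hx.1
  have h2 := convex_side hMo hPo hPM.symm (hconv l₁ z)
    (by rw [union_comm]; exact hslice l₁ z hzr) ⟨hz.2, fun i => rfl⟩ hz.1
  -- a common point
  let A : Mat m n := fun i j => if j = l₀ then x i j else z i j
  have hA : A ∈ ball (f a) ρ := by
    rw [mem_ball_iff hρ]
    intro i j
    show |(if j = l₀ then x i j else z i j) - f a i j| < ρ
    split_ifs with h
    · exact (mem_ball_iff hρ).1 hx.2 i j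
    · exact (mem_ball_iff hρ).1 hz.2 i j
  have hAP : A ∈ P := h1 ⟨hA, fun i => by simp [A]⟩
  have hAM : A ∈ M := h2 ⟨hA, fun i => by simp [A, Ne.symm hl]⟩
  exact disjoint_left.1 hPM hAP hAM

/-- row `i` of `A q - p` -/
def row (q : Fin n → ℤ) (p : Fin m → ℤ) (A : Mat m n) (i : Fin m) : ℝ :=
  (∑ j, A i j * (q j : ℝ)) - (p i : ℝ)

theorem row_comb (q : Fin n → ℤ) (p : Fin m → ℤ) (A B : Mat m n) (i : Fin m) (s t : ℝ)
    (hst : s + t = 1) : row q p (s • A + t • B) i = s * row q p A i + t * row q p B i := by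
  unfold row
  have h1 : ∑ j, (s • A + t • B) i j * (q j : ℝ) =
      s * ∑ j, A i j * (q j : ℝ) + t * ∑ j, B i j * (q j : ℝ) := by
    rw [Finset.mul_sum, Finset.mul_sum, ← Finset.sum_add_distrib]
    refine Finset.sum_congr rfl fun j _ => ?_
    show (s * A i j + t * B i j) * (q j : ℝ) = _
    ring
  rw [h1]
  linear_combination (p i : ℝ) * hst

theorem continuous_row (q : Fin n → ℤ) (p : Fin m → ℤ) (i : Fin m) :
    Continuous fun A : Mat m n => row q p A i := by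
  unfold row
  refine Continuous.sub (continuous_finsetSum _ fun j _ => ?_) continuous_const
  refine Continuous.mul ?_ continuous_const
  exact (continuous_apply j).comp (continuous_apply i)

/-- matrices off a rational subspace are dense -/
theorem exists_off {O : Set (Mat m n)} (hO : IsOpen O) {B : Mat m n} (hB : B ∈ O)
    (q : Fin n → ℤ) (p : Fin m → ℤ) (hq : q ≠ 0) (i : Fin m) (σ : ℝ) (hσ : σ = 1 ∨ σ = -1)
    (hB0 : row q p B i = 0) : ∃ A ∈ O, 0 < σ * row q p A i := by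
  obtain ⟨ε, hε, hball⟩ := Metric.isOpen_iff.1 hO B hB
  obtain ⟨j₁, hj₁⟩ : ∃ j, q j ≠ 0 := by
    by_contra h
    push Not at h
    exact hq (funext h)
  have hj : (q j₁ : ℝ) ≠ 0 := by exact_mod_cast hj₁
  set d : ℝ := σ * (ε / 2) * SignType.sign (q j₁ : ℝ) with hd
  have hdabs : |d| = ε / 2 := by
    rw [hd, abs_mul, abs_mul, abs_of_pos (by positivity : 0 < ε / 2)]
    have h1 : |σ| = 1 := by rcases hσ with rfl | rfl <;> simp
    rw [h1]
    rcases lt_or_gt_of_ne hj with h | h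
    · simp [h]
    · simp [h]
  refine ⟨setEntry i j₁ (B i j₁ + d) B, hball ?_, ?_⟩
  · rw [mem_ball_iff hε]
    intro i' j'
    unfold setEntry
    split_ifs with h
    · rw [h.1, h.2, add_sub_cancel_left, hdabs]; linarith
    · rw [sub_self, abs_zero]; exact hε
  · have h1 : row q p (setEntry i j₁ (B i j₁ + d) B) i = row q p B i + d * q j₁ := by
      unfold row
      have h2 : ∀ j, setEntry i j₁ (B i j₁ + d) B i j * (q j : ℝ) =
          B i j * (q j : ℝ) + if j = j₁ then d * (q j₁ : ℝ) else 0 := by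
        intro j
        unfold setEntry
        by_cases h : j = j₁
        · subst h; simp; ring
        · simp [h]
      rw [Finset.sum_congr rfl fun j _ => h2 j, Finset.sum_add_distrib, Finset.sum_ite_eq']
      simp
      ring
    rw [h1, hB0, zero_add, hd]
    have h3 : σ * σ = 1 := by rcases hσ with rfl | rfl <;> norm_num
    have h4 : ((SignType.sign (q j₁ : ℝ) : ℝ)) * q j₁ = |(q j₁ : ℝ)| := by
      exact sign_mul_self _
    have h5 : 0 < |(q j₁ : ℝ)| := abs_pos.2 hj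
    calc 0 < (ε / 2) * |(q j₁ : ℝ)| := by positivity
      _ = σ * (σ * (ε / 2) * SignType.sign (q j₁ : ℝ) * q j₁) := by
        linear_combination (-(ε / 2) * |(q j₁ : ℝ)|) * h3 - σ * σ * (ε / 2) * h4

/-- an open set contains matrices off the subspace -/
theorem exists_off' {O : Set (Mat m n)} (hO : IsOpen O) (hne : O.Nonempty)
    (q : Fin n → ℤ) (p : Fin m → ℤ) (hq : q ≠ 0) (i : Fin m) : ∃ A ∈ O, row q p A i ≠ 0 := by
  obtain ⟨B, hB⟩ := hne
  by_cases h : row q p B i = 0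
  · obtain ⟨A, hA, h1⟩ := exists_off hO hB q p hq i 1 (Or.inl rfl) h
    exact ⟨A, hA, by rw [one_mul] at h1; exact h1.ne'⟩
  · exact ⟨B, hB, h⟩

theorem half_convex (b : Mat m n) (ρ : ℝ) (q : Fin n → ℤ) (p : Fin m → ℤ) (i : Fin m) (σ : ℝ) :
    Convex ℝ {A : Mat m n | A ∈ ball b ρ ∧ 0 < σ * row q p A i} := by
  intro A hA B hB s t hs ht hst
  refine ⟨convex_ball _ _ hA.1 hB.1 hs ht hst, ?_⟩
  rw [row_comb q p A B i s t hst]
  have h1 := hA.2
  have h2 := hB.2
  have e : σ * (s * row q p A i + t * row q p B i) =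
      s * (σ * row q p A i) + t * (σ * row q p B i) := by ring
  rw [e]
  rcases hs.eq_or_lt with h | h
  · subst h
    rw [zero_add] at hst
    subst hst
    simpa using h2
  · have := mul_pos h h1
    have := mul_nonneg ht h2.le
    linarith

/-- a sign -/
theorem exists_sign {x : ℝ} (hx : x ≠ 0) : ∃ σ : ℝ, (σ = 1 ∨ σ = -1) ∧ 0 < σ * x := by
  rcases lt_or_gt_of_ne hx with h | h
  · exact ⟨-1, Or.inr rfl, by linarith⟩
  · exact ⟨1, Or.inl rfl, by linarith⟩

/-- at least two rows: a piece of a hyperplane is not mapped into a rational subspace -/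
theorem rows_hit {U : Set (Mat m n)} (f : Mat m n → Mat m n) (hc : ContinuousOn f U)
    (hi : InjOn f U) (i₀ : Fin m) (j₀ : Fin n) (a : Mat m n) (r : ℝ) (hr : 0 < r)
    (hball : ball a r ⊆ U) (l₀ l₁ : Fin m) (hl : l₀ ≠ l₁) (q : Fin n → ℤ) (p : Fin m → ℤ)
    (hq : q ≠ 0) (hD : ∀ A ∈ ball a r, A i₀ j₀ = a i₀ j₀ → ∀ i, row q p (f A) i = 0) : False := by
  obtain ⟨ρ, P, M, hρ, hPo, hMo, hPM, hcov, -, hPne, hMne⟩ := sep f hc hi i₀ j₀ a r hr hball
  obtain ⟨x, hx, hxr⟩ := exists_off' (hPo.inter isOpen_ball) hPne q p hq l₀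
  obtain ⟨z, hz, hzr⟩ := exists_off' (hMo.inter isOpen_ball) hMne q p hq l₁
  obtain ⟨σ, -, hσ⟩ := exists_sign hxr
  obtain ⟨τ, -, hτ⟩ := exists_sign hzr
  have hslice : ∀ (l : Fin m) (σ : ℝ),
      {A : Mat m n | A ∈ ball (f a) ρ ∧ 0 < σ * row q p A l} ⊆ P ∪ M := by
    rintro l σ A ⟨hA1, hA2⟩
    rcases hcov hA1 with h | ⟨B, ⟨hB1, hB2⟩, rfl⟩
    · exact h
    · rw [hD B hB1 hB2 l, mul_zero] at hA2
      exact absurd hA2 (lt_irrefl _)
  have h1 := convex_side hPo hMo hPM (half_convex (f a) ρ q p l₀ σ) (hslice l₀ σ) ⟨hx.2, hσ⟩ hx.1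
  have h2 := convex_side hMo hPo hPM.symm (half_convex (f a) ρ q p l₁ τ)
    (by rw [union_comm]; exact hslice l₁ τ) ⟨hz.2, hτ⟩ hz.1
  let A : Mat m n := fun i j => if i = l₀ then x i j else z i j
  have hA : A ∈ ball (f a) ρ := by
    rw [mem_ball_iff hρ]
    intro i j
    show |(if i = l₀ then x i j else z i j) - f a i j| < ρ
    split_ifs with h
    · exact (mem_ball_iff hρ).1 hx.2 i j
    · exact (mem_ball_iff hρ).1 hz.2 i j
  have hA0 : row q p A l₀ = row q p x l₀ := by simp [row, A]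
  have hA1 : row q p A l₁ = row q p z l₁ := by simp [row, A, Ne.symm hl]
  have hAP : A ∈ P := h1 ⟨hA, by rw [hA0]; exact hσ⟩
  have hAM : A ∈ M := h2 ⟨hA, by rw [hA1]; exact hτ⟩
  exact disjoint_left.1 hPM hAP hAM

/-- one row: if a piece of a hyperplane is mapped into a rational hyperplane, then its image
contains a relatively open piece of it -/
theorem row_open {U : Set (Mat m n)} (f : Mat m n → Mat m n) (hc : ContinuousOn f U)
    (hi : InjOn f U) (i₀ : Fin m) (j₀ : Fin n) (a : Mat m n) (r : ℝ) (hr : 0 < r)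
    (hball : ball a r ⊆ U) (hm : ∀ i : Fin m, i = i₀) (q : Fin n → ℤ) (p : Fin m → ℤ)
    (hq : q ≠ 0) (hD : ∀ A ∈ ball a r, A i₀ j₀ = a i₀ j₀ → row q p (f A) i₀ = 0) :
    ∃ O : Set (Mat m n), IsOpen O ∧ f a ∈ O ∧ ∀ z ∈ O, row q p z i₀ = 0 →
      ∃ A ∈ ball a r, A i₀ j₀ = a i₀ j₀ ∧ f A = z := by
  obtain ⟨ρ, P, M, hρ, hPo, hMo, hPM, hcov, -, hPne, hMne⟩ := sep f hc hi i₀ j₀ a r hr hball
  obtain ⟨x, hx, hxr⟩ := exists_off' (hPo.inter isOpen_ball) hPne q p hq i₀
  obtain ⟨z, hz, hzr⟩ := exists_off' (hMo.inter isOpen_ball) hMne q p hq i₀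
  obtain ⟨σ, hσ1, hσ⟩ := exists_sign hxr
  obtain ⟨τ, hτ1, hτ⟩ := exists_sign hzr
  have hslice : ∀ (l : Fin m) (σ : ℝ),
      {A : Mat m n | A ∈ ball (f a) ρ ∧ 0 < σ * row q p A l} ⊆ P ∪ M := by
    rintro l σ A ⟨hA1, hA2⟩
    rcases hcov hA1 with h | ⟨B, ⟨hB1, hB2⟩, rfl⟩
    · exact h
    · rw [hm l, hD B hB1 hB2, mul_zero] at hA2
      exact absurd hA2 (lt_irrefl _)
  have h1 := convex_side hPo hMo hPM (half_convex (f a) ρ q p i₀ σ) (hslice i₀ σ) ⟨hx.2, hσ⟩ hx.1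
  have h2 := convex_side hMo hPo hPM.symm (half_convex (f a) ρ q p i₀ τ)
    (by rw [union_comm]; exact hslice i₀ τ) ⟨hz.2, hτ⟩ hz.1
  -- the signs are different
  have hστ : τ = -σ := by
    by_contra hne
    have hst : τ = σ := by
      rcases hσ1 with rfl | rfl <;> rcases hτ1 with rfl | rfl
      · rfl
      · exact absurd rfl hne
      · exact absurd (by norm_num) hne
      · rfl
    subst hst
    exact disjoint_left.1 hPM hx.1 (h2 ⟨hx.2, hσ⟩)
  refine ⟨ball (f a) ρ, isOpen_ball, mem_ball_self hρ, fun w hw hw0 => ?_⟩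
  rcases hcov hw with (h | h) | ⟨A, ⟨hA1, hA2⟩, hA3⟩
  · obtain ⟨B, hB, hB1⟩ := exists_off (hPo.inter isOpen_ball) ⟨h, hw⟩ q p hq i₀ τ hτ1 hw0
    exact absurd (h2 ⟨hB.2, hB1⟩) (disjoint_left.1 hPM hB.1)
  · obtain ⟨B, hB, hB1⟩ := exists_off (hMo.inter isOpen_ball) ⟨h, hw⟩ q p hq i₀ σ hσ1 hw0
    exact absurd (h1 ⟨hB.2, hB1⟩) (disjoint_left.1 hPM.symm hB.1)
  · exact ⟨A, hA1, hA2, hA3⟩

end Pool.Agent.R332.SepLiou
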